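import Pool.Graph.R_pool_sql_team_seeded_63374d34.N347.TC.Ori

/-!
# Unions of two colour classes of a claw-free graph are 2-choosable
-/

set_option autoImplicit false

namespace Pool.Agent.H8.Few

open Finset

/-- claw-free graphs -/
def CF {V : Type} (H : SimpleGraph V) : Prop :=
  ∀ v a b c : V, H.Adj v a → H.Adj v b → H.Adj v c → a ≠ b → a ≠ c → b ≠ c →
    H.Adj a b ∨ H.Adj a c ∨ H.Adj b c

/-- the vertices in `W` can be coloured from the lists `L` -/
def Col {V : Type} (H : SimpleGraph V) (W : Set V) (L : V → Finset ℕ) : Prop :=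
  ∃ f : V → ℕ, (∀ v ∈ W, f v ∈ L v) ∧ ∀ u ∈ W, ∀ v ∈ W, H.Adj u v → f u ≠ f v

/-- the vertices in `W` can be coloured with `k` colours -/
def KCol {V : Type} (H : SimpleGraph V) (W : Set V) (k : ℕ) : Prop :=
  ∃ c : V → ℕ, (∀ v ∈ W, c v < k) ∧ ∀ u ∈ W, ∀ v ∈ W, H.Adj u v → c u ≠ c v

theorem Col.mono {V : Type} {H : SimpleGraph V} {W : Set V} {L L' : V → Finset ℕ}
    (h : Col H W L) (hL : ∀ v ∈ W, L v ⊆ L' v) : Col H W L' := by
  obtain ⟨f, h1, h2⟩ := h
  exact ⟨f, fun v hv => hL v hv (h1 v hv), h2⟩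

/-- `KCol` for a smaller set -/
theorem KCol.mono {V : Type} {H : SimpleGraph V} {W W' : Set V} {k : ℕ}
    (h : KCol H W k) (hW : W' ⊆ W) : KCol H W' k := by
  obtain ⟨c, h1, h2⟩ := h
  exact ⟨c, fun v hv => h1 v (hW hv), fun u hu v hv => h2 u (hW hu) v (hW hv)⟩

theorem one {V : Type} {H : SimpleGraph V} {W : Set V} (hk : KCol H W 1)
    (L : V → Finset ℕ) (hL : ∀ v ∈ W, 1 ≤ (L v).card) : Col H W L := by
  classical
  obtain ⟨c, h1, h2⟩ := hk
  have : ∀ v, ∃ x, v ∈ W → x ∈ L v := by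
    intro v
    by_cases hv : v ∈ W
    · obtain ⟨x, hx⟩ := card_pos.1 (hL v hv)
      exact ⟨x, fun _ => hx⟩
    · exact ⟨0, fun h => absurd h hv⟩
  choose f hf using this
  refine ⟨f, hf, fun u hu v hv huv => ?_⟩
  exfalso
  have a1 := h1 u hu
  have a2 := h1 v hv
  exact h2 u hu v hv huv (by omega)

theorem card_le_two {α : Type} [DecidableEq α] (s : Finset α)
    (h : ∀ a ∈ s, ∀ b ∈ s, ∀ c ∈ s, a ≠ b → a ≠ c → b ≠ c → False) : s.card ≤ 2 := by
  by_contra hc
  push Not at hc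
  obtain ⟨a, b, c, ha, hb, hc', h1, h2, h3⟩ := Finset.two_lt_card_iff.1 hc
  exact h a ha b hb c hc' h1 h2 h3

/-- **Unions of two colour classes of a claw-free graph are 2-choosable.** -/
theorem two {V : Type} [Finite V] {H : SimpleGraph V} (hH : CF H) {W : Set V} (hk : KCol H W 2)
    (L : V → Finset ℕ) (hL : ∀ v ∈ W, 2 ≤ (L v).card) : Col H W L := by
  classical
  have := Fintype.ofFinite V
  obtain ⟨s, hs1, hs2⟩ := hk
  let E : Type := {p : V × V // p.1 ∈ W ∧ p.2 ∈ W ∧ s p.1 = 0 ∧ s p.2 = 1 ∧ H.Adj p.1 p.2}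
  -- the edges have two colours
  obtain ⟨c, hc1, hc2⟩ := Pool.Agent.N645.TBKON.kon (U := E) (fun p => p.1.1) (fun p => p.1.2) 2
    (by
      intro x
      apply card_le_two
      rintro ⟨⟨x1, y1⟩, h1⟩ m1 ⟨⟨x2, y2⟩, h2⟩ m2 ⟨⟨x3, y3⟩, h3⟩ m3 n1 n2 n3
      simp only [mem_filter, mem_univ, true_and] at m1 m2 m3
      subst m1
      subst m2
      subst m3
      obtain ⟨a1, a2, a3, a4, a5⟩ := h1
      obtain ⟨b1, b2, b3, b4, b5⟩ := h2
      obtain ⟨c1, c2, c3, c4, c5⟩ := h3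
      simp only at a1 a2 a3 a4 a5 b1 b2 b3 b4 b5 c1 c2 c3 c4 c5
      rcases hH x3 y1 y2 y3 a5 b5 c5 (by rintro rfl; exact n1 rfl) (by rintro rfl; exact n2 rfl)
        (by rintro rfl; exact n3 rfl) with h | h | h
      · exact hs2 _ a2 _ b2 h (by rw [a4, b4])
      · exact hs2 _ a2 _ c2 h (by rw [a4, c4])
      · exact hs2 _ b2 _ c2 h (by rw [b4, c4]))
    (by
      intro x
      apply card_le_two
      rintro ⟨⟨x1, y1⟩, h1⟩ m1 ⟨⟨x2, y2⟩, h2⟩ m2 ⟨⟨x3, y3⟩, h3⟩ m3 n1 n2 n3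
      simp only [mem_filter, mem_univ, true_and] at m1 m2 m3
      subst m1
      subst m2
      subst m3
      obtain ⟨a1, a2, a3, a4, a5⟩ := h1
      obtain ⟨b1, b2, b3, b4, b5⟩ := h2
      obtain ⟨c1, c2, c3, c4, c5⟩ := h3
      simp only at a1 a2 a3 a4 a5 b1 b2 b3 b4 b5 c1 c2 c3 c4 c5
      rcases hH y3 x1 x2 x3 a5.symm b5.symm c5.symm (by rintro rfl; exact n1 rfl)
        (by rintro rfl; exact n2 rfl) (by rintro rfl; exact n3 rfl) with h | h | h
      · exact hs2 _ a1 _ b1 h (by rw [a3, b3])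
      · exact hs2 _ a1 _ c1 h (by rw [a3, c3])
      · exact hs2 _ b1 _ c1 h (by rw [b3, c3]))
  -- the two matchings define the maps
  let g : Fin 2 → {v // v ∈ W} → V := fun i v =>
    if h : s v.1 = 1 ∧ ∃ p : E, c p = i ∧ p.1.2 = v.1 then (Classical.choose h.2).1.1 else v.1
  have hg0 : ∀ i (v : {v // v ∈ W}), s v.1 = 0 → g i v = v.1 := by
    intro i v hv
    simp only [g]
    rw [dif_neg]
    rintro ⟨h, _⟩
    omega
  have hg1 : ∀ (p : E) (v : {v // v ∈ W}), p.1.2 = v.1 → g (c p) v = p.1.1 := by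
    intro p v hv
    have h : s v.1 = 1 ∧ ∃ q : E, c q = c p ∧ q.1.2 = v.1 :=
      ⟨by rw [← hv]; exact p.2.2.2.2.1, p, rfl, hv⟩
    simp only [g]
    rw [dif_pos h]
    have h1 := (Classical.choose_spec h.2)
    by_contra hne
    have h2 : Classical.choose h.2 ≠ p := by
      intro h3
      exact hne (by rw [h3])
    exact hc2 _ _ h2 (by rw [h1.2, hv]) h1.1
  have hgd : ∀ i (v : {v // v ∈ W}), g i v = v.1 ∨ ∃ p : E, c p = i ∧ p.1.2 = v.1 ∧ g i v = p.1.1 := by
    intro i v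
    by_cases h : s v.1 = 1 ∧ ∃ p : E, c p = i ∧ p.1.2 = v.1
    · right
      refine ⟨Classical.choose h.2, (Classical.choose_spec h.2).1, (Classical.choose_spec h.2).2, ?_⟩
      simp only [g]
      rw [dif_pos h]
    · left
      simp only [g]
      rw [dif_neg h]
  have hfib : ∀ i z, (univ.filter fun v => g i v = z).card ≤ 2 := by
    intro i z
    apply card_le_two
    intro u hu v hv w hw n1 n2 n3
    simp only [mem_filter, mem_univ, true_and] at hu hv hw
    have key : ∀ u v : {v // v ∈ W}, g i u = z → g i v = z → u.1 ≠ z → v.1 ≠ z → u = v := by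
      intro u v hu hv hu' hv'
      rcases hgd i u with h | ⟨p, p1, p2, p3⟩
      · exact absurd (h.symm.trans hu) hu'
      rcases hgd i v with h | ⟨q, q1, q2, q3⟩
      · exact absurd (h.symm.trans hv) hv'
      have hpq : p = q := by
        by_contra hne
        exact hc1 p q hne (by rw [← p3, ← q3, hu, hv]) (by rw [p1, q1])
      apply Subtype.ext
      rw [← p2, ← q2, hpq]
    by_cases e1 : u.1 = z
    · have e2 : v.1 ≠ z := fun h => n1 (Subtype.ext (e1.trans h.symm))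
      have e3 : w.1 ≠ z := fun h => n2 (Subtype.ext (e1.trans h.symm))
      exact n3 (key v w hv hw e2 e3)
    · by_cases e2 : v.1 = z
      · have e3 : w.1 ≠ z := fun h => n3 (Subtype.ext (e2.trans h.symm))
        exact n2 (key u w hu hw e1 e3)
      · exact n1 (key u v hu hv e1 e2)
  obtain ⟨φ, hφ⟩ := Pool.Agent.N347.TC.galvin_multi (U := {v // v ∈ W}) (g 0) (g 1) 2 (hfib 0)
    (hfib 1) (fun v => L v.1) (fun v => hL v.1 v.2)
  refine ⟨fun v => if h : v ∈ W then φ ⟨v, h⟩ else 0, ?_, ?_⟩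
  · intro v hv
    simp only
    rw [dif_pos hv]
    exact (hφ ⟨v, hv⟩).1
  · have main : ∀ u (hu : u ∈ W) v (hv : v ∈ W), H.Adj u v → s u = 0 → s v = 1 →
        φ ⟨u, hu⟩ ≠ φ ⟨v, hv⟩ := by
      intro u hu v hv huv h0 h1 heq
      let p : E := ⟨(u, v), hu, hv, h0, h1, huv⟩
      have hne : (⟨u, hu⟩ : {v // v ∈ W}) ≠ ⟨v, hv⟩ := by
        intro h
        exact huv.ne (congrArg Subtype.val h)
      obtain ⟨k1, k2⟩ := (hφ ⟨v, hv⟩).2 ⟨u, hu⟩ hne heq
      have a1 : g (c p) ⟨v, hv⟩ = u := hg1 p ⟨v, hv⟩ rfl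
      have a2 : g (c p) ⟨u, hu⟩ = u := hg0 (c p) ⟨u, hu⟩ h0
      rcases (show c p = 0 ∨ c p = 1 by
        rcases c p with ⟨i, hi⟩
        interval_cases i
        · left; rfl
        · right; rfl) with h | h
      · rw [h] at a1 a2
        exact k1 (a2.trans a1.symm)
      · rw [h] at a1 a2
        exact k2 (a2.trans a1.symm)
    intro u hu v hv huv
    simp only
    rw [dif_pos hu, dif_pos hv]
    have a1 := hs1 u hu
    have a2 := hs1 v hv
    have a3 := hs2 u hu v hv huv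
    rcases (show (s u = 0 ∧ s v = 1) ∨ (s v = 0 ∧ s u = 1) by omega) with h | h
    · exact main u hu v hv huv h.1 h.2
    · exact (main v hv u hu huv.symm h.1 h.2).symm

end Pool.Agent.H8.Few
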