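import Pool.Agent.H8.Few.Two

/-!
# Splitting the palette into blocks
-/

set_option autoImplicit false

namespace Pool.Agent.H8.Few

open Finset

/-- Colouring block by block. -/
theorem assemble {V I : Type} (H : SimpleGraph V) (t : V → I) (Good : ℕ → Prop)
    (hG : ∀ d, Good d → ∀ W : Set V, KCol H W d → ∀ A : I → Finset ℕ, (∀ i, (A i).card = d) →
      Col H W (fun v => A (t v)))
    (Fam : ℕ → (I → Finset ℕ) → Prop)
    (hex : ∀ k A, Fam k A → k ≠ 0 → ∃ (d : ℕ) (P : Finset ℕ), 0 < d ∧ d ≤ k ∧ Good d ∧
      (∀ i, (A i ∩ P).card = d) ∧ Fam (k - d) (fun i => A i \ P)) :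
    ∀ (k : ℕ) (A : I → Finset ℕ), Fam k A → ∀ W : Set V, KCol H W k → Col H W (fun v => A (t v)) := by
  intro k
  induction k using Nat.strong_induction_on with
  | _ k ih =>
    intro A hA W hW
    by_cases hk : k = 0
    · subst hk
      obtain ⟨c, h1, _⟩ := hW
      exact ⟨fun _ => 0, fun v hv => absurd (h1 v hv) (Nat.not_lt_zero _),
        fun v hv => absurd (h1 v hv) (Nat.not_lt_zero _)⟩
    obtain ⟨d, P, hd0, hdk, hGd, hP, hF⟩ := hex k A hA hk
    obtain ⟨c, h1, h2⟩ := hW
    obtain ⟨f, f1, f2⟩ := hG d hGd {v | v ∈ W ∧ c v < d}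
      ⟨c, fun v hv => hv.2, fun u hu v hv => h2 u hu.1 v hv.1⟩ (fun i => A i ∩ P) hP
    obtain ⟨g, g1, g2⟩ := ih (k - d) (by omega) (fun i => A i \ P) hF {v | v ∈ W ∧ ¬ c v < d}
      ⟨fun v => c v - d, fun v hv => by
        have a1 := h1 v hv.1
        have a2 : ¬ c v < d := hv.2
        show c v - d < k - d
        omega, fun u hu v hv huv h => by
        have a1 : ¬ c u < d := hu.2
        have a2 : ¬ c v < d := hv.2
        have a3 := h2 u hu.1 v hv.1 huv
        have a4 : c u - d = c v - d := h
        omega⟩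
    refine ⟨fun v => if c v < d then f v else g v, ?_, ?_⟩
    · intro v hv
      by_cases h : c v < d
      · simp only [h, if_true]
        exact (mem_inter.1 (f1 v ⟨hv, h⟩)).1
      · simp only [h, if_false]
        exact (mem_sdiff.1 (g1 v ⟨hv, h⟩)).1
    · intro u hu v hv huv
      by_cases h : c u < d
      · by_cases h' : c v < d
        · simp only [h, h', if_true]
          exact f2 u ⟨hu, h⟩ v ⟨hv, h'⟩ huv
        · simp only [h, h', if_true, if_false]
          intro he
          have a1 := (mem_inter.1 (f1 u ⟨hu, h⟩)).2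
          have a2 := (mem_sdiff.1 (g1 v ⟨hv, h'⟩)).2
          exact a2 (he ▸ a1)
      · by_cases h' : c v < d
        · simp only [h, h', if_true, if_false]
          intro he
          have a1 := (mem_inter.1 (f1 v ⟨hv, h'⟩)).2
          have a2 := (mem_sdiff.1 (g1 u ⟨hu, h⟩)).2
          exact a2 (he ▸ a1)
        · simp only [h, h', if_false]
          exact g2 u ⟨hu, h⟩ v ⟨hv, h'⟩ huv

/-- sublists of the exact size -/
theorem shrink {I : Type} (k : ℕ) (A : I → Finset ℕ) (hA : ∀ i, k ≤ (A i).card) :
    ∃ B : I → Finset ℕ, ∀ i, B i ⊆ A i ∧ (B i).card = k := by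
  have : ∀ i, ∃ B : Finset ℕ, B ⊆ A i ∧ B.card = k := fun i => exists_subset_card_eq (hA i)
  choose B hB using this
  exact ⟨B, hB⟩

theorem good12 {V I : Type} [Finite V] {H : SimpleGraph V} (hH : CF H) (t : V → I) (d : ℕ)
    (hd : d = 1 ∨ d = 2) (W : Set V) (hW : KCol H W d) (A : I → Finset ℕ)
    (hA : ∀ i, (A i).card = d) : Col H W (fun v => A (t v)) := by
  rcases hd with rfl | rfl
  · exact one hW _ (fun v _ => (hA (t v)).ge)
  · exact two hH hW _ (fun v _ => (hA (t v)).ge)

/-- **Blocks of three lists.** -/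
theorem block3 (k : ℕ) (hk : k ≠ 0) (A : Fin 3 → Finset ℕ) (hA : ∀ i, (A i).card = k) :
    ∃ (d : ℕ) (P : Finset ℕ), (d = 1 ∨ d = 2) ∧ ∀ i, (A i ∩ P).card = d := by
  set A0 := A 0
  set A1 := A 1
  set A2 := A 2
  have c0 : A0.card = k := hA 0
  have c1 : A1.card = k := hA 1
  have c2 : A2.card = k := hA 2
  have all : ∀ (d : ℕ) (P : Finset ℕ), (A0 ∩ P).card = d → (A1 ∩ P).card = d →
      (A2 ∩ P).card = d → ∀ i, (A i ∩ P).card = d := by
    intro d P h0 h1 h2 i
    fin_cases i
    · exact h0
    · exact h1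
    · exact h2
  -- singles
  have s1 : ∀ (B : Finset ℕ) (x : ℕ), x ∈ B → (B ∩ {x}).card = 1 := by
    intro B x hx
    rw [inter_singleton_of_mem hx, card_singleton]
  have s2 : ∀ (B : Finset ℕ) (x y : ℕ), x ∈ B → y ∉ B → (B ∩ {x, y}).card = 1 := by
    intro B x y hx hy
    rw [card_eq_one]
    refine ⟨x, ?_⟩
    ext z
    simp only [mem_inter, mem_insert, mem_singleton]
    constructor
    · rintro ⟨h1, h2 | h2⟩
      · exact h2
      · subst h2
        exact absurd h1 hy
    · rintro rfl
      exact ⟨hx, Or.inl rfl⟩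
  have s2' : ∀ (B : Finset ℕ) (x y : ℕ), x ∉ B → y ∈ B → (B ∩ {x, y}).card = 1 := by
    intro B x y hx hy
    rw [pair_comm]
    exact s2 B y x hy hx
  by_cases hw : (A0 ∩ A1 ∩ A2).Nonempty
  · obtain ⟨x, hx⟩ := hw
    simp only [mem_inter] at hx
    exact ⟨1, {x}, Or.inl rfl, all _ _ (s1 _ _ hx.1.1) (s1 _ _ hx.1.2) (s1 _ _ hx.2)⟩
  rw [not_nonempty_iff_eq_empty] at hw
  -- the decompositions
  have d0 : ((A0 \ A1) \ A2).card + ((A0 ∩ A2) \ A1).card + ((A0 ∩ A1) \ A2).card = k := by
    have e1 := card_sdiff_add_card_inter A0 A1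
    have e2 := card_sdiff_add_card_inter (A0 \ A1) A2
    have e3 := card_sdiff_add_card_inter (A0 ∩ A1) A2
    have e4 : (A0 \ A1) ∩ A2 = (A0 ∩ A2) \ A1 := by ext z; simp only [mem_inter, mem_sdiff]; tauto
    rw [e4] at e2
    rw [hw, card_empty] at e3
    omega
  have d1 : ((A1 \ A0) \ A2).card + ((A1 ∩ A2) \ A0).card + ((A0 ∩ A1) \ A2).card = k := by
    have e1 := card_sdiff_add_card_inter A1 A0
    have e2 := card_sdiff_add_card_inter (A1 \ A0) A2
    have e3 := card_sdiff_add_card_inter (A1 ∩ A0) A2
    have e4 : (A1 \ A0) ∩ A2 = (A1 ∩ A2) \ A0 := by ext z; simp only [mem_inter, mem_sdiff]; tauto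
    rw [e4] at e2
    rw [inter_comm A1 A0, hw, card_empty] at e3
    rw [inter_comm A1 A0] at e1
    omega
  have d2 : ((A2 \ A0) \ A1).card + ((A1 ∩ A2) \ A0).card + ((A0 ∩ A2) \ A1).card = k := by
    have e1 := card_sdiff_add_card_inter A2 A0
    have e2 := card_sdiff_add_card_inter (A2 \ A0) A1
    have e3 := card_sdiff_add_card_inter (A2 ∩ A0) A1
    have e4 : (A2 \ A0) ∩ A1 = (A1 ∩ A2) \ A0 := by ext z; simp only [mem_inter, mem_sdiff]; tauto
    have e5 : (A2 ∩ A0) ∩ A1 = ∅ := by
      rw [← hw]
      ext z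
      simp only [mem_inter]
      tauto
    rw [e4] at e2
    rw [e5, card_empty] at e3
    rw [inter_comm A2 A0] at e1 e3
    omega
  by_cases ha : ((A0 \ A1) \ A2).Nonempty
  · by_cases hz : ((A1 ∩ A2) \ A0).Nonempty
    · obtain ⟨x, hx⟩ := ha
      obtain ⟨y, hy⟩ := hz
      simp only [mem_inter, mem_sdiff] at hx hy
      exact ⟨1, {x, y}, Or.inl rfl, all _ _ (s2 _ _ _ hx.1.1 hy.2) (s2' _ _ _ hx.1.2 hy.1.1)
        (s2' _ _ _ hx.2 hy.1.2)⟩
    · rw [not_nonempty_iff_eq_empty] at hz
      rw [hz, card_empty] at d1 d2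
      have ha' := card_pos.2 ha
      have hb : ((A1 \ A0) \ A2).Nonempty ∨ ((A0 ∩ A1) \ A2).Nonempty := by
        by_contra hcon
        push Not at hcon
        rw [hcon.1, hcon.2] at d1
        simp only [card_empty] at d1
        omega
      by_cases hb' : ((A1 \ A0) \ A2).Nonempty
      · by_cases hc' : ((A2 \ A0) \ A1).Nonempty
        · obtain ⟨x, hx⟩ := ha
          obtain ⟨y, hy⟩ := hb'
          obtain ⟨z, hz'⟩ := hc'
          simp only [mem_sdiff] at hx hy hz'
          refine ⟨1, {x, y, z}, Or.inl rfl, all _ _ ?_ ?_ ?_⟩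
          · rw [card_eq_one]
            refine ⟨x, ?_⟩
            ext w
            simp only [mem_inter, mem_insert, mem_singleton]
            constructor
            · rintro ⟨h1, h2 | h2 | h2⟩
              · exact h2
              · subst h2
                exact absurd h1 hy.1.2
              · subst h2
                exact absurd h1 hz'.1.2
            · rintro rfl
              exact ⟨hx.1.1, Or.inl rfl⟩
          · rw [card_eq_one]
            refine ⟨y, ?_⟩
            ext w
            simp only [mem_inter, mem_insert, mem_singleton]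
            constructor
            · rintro ⟨h1, h2 | h2 | h2⟩
              · subst h2
                exact absurd h1 hx.1.2
              · exact h2
              · subst h2
                exact absurd h1 hz'.2
            · rintro rfl
              exact ⟨hy.1.1, Or.inr (Or.inl rfl)⟩
          · rw [card_eq_one]
            refine ⟨z, ?_⟩
            ext w
            simp only [mem_inter, mem_insert, mem_singleton]
            constructor
            · rintro ⟨h1, h2 | h2 | h2⟩
              · subst h2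
                exact absurd h1 hx.2
              · subst h2
                exact absurd h1 hy.2
              · exact h2
            · rintro rfl
              exact ⟨hz'.1.1, Or.inr (Or.inr rfl)⟩
        · -- no single in `A2`: then `A2` has a colour in common with `A0`
          rw [not_nonempty_iff_eq_empty] at hc'
          rw [hc', card_empty] at d2
          have hy' : ((A0 ∩ A2) \ A1).Nonempty := by
            rw [← card_pos]
            omega
          obtain ⟨x, hx⟩ := hb'
          obtain ⟨y, hy⟩ := hy'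
          simp only [mem_inter, mem_sdiff] at hx hy
          exact ⟨1, {x, y}, Or.inl rfl, all _ _ (s2' _ _ _ hx.1.2 hy.1.1) (s2 _ _ _ hx.1.1 hy.2)
            (s2' _ _ _ hx.2 hy.1.2)⟩
      · have hx' := hb.resolve_left hb'
        rw [not_nonempty_iff_eq_empty] at hb'
        rw [hb', card_empty] at d1
        have hc' : ((A2 \ A0) \ A1).Nonempty := by
          rw [← card_pos]
          omega
        obtain ⟨x, hx⟩ := hx'
        obtain ⟨y, hy⟩ := hc'
        simp only [mem_inter, mem_sdiff] at hx hy
        exact ⟨1, {x, y}, Or.inl rfl, all _ _ (s2 _ _ _ hx.1.1 hy.1.2) (s2 _ _ _ hx.1.2 hy.2)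
          (s2' _ _ _ hx.2 hy.1.1)⟩
  · rw [not_nonempty_iff_eq_empty] at ha
    rw [ha, card_empty] at d0
    by_cases hb' : ((A1 \ A0) \ A2).Nonempty
    · -- then `A0 ∩ A2` has an element outside `A1`
      have hy' : ((A0 ∩ A2) \ A1).Nonempty := by
        by_contra hcon
        rw [not_nonempty_iff_eq_empty] at hcon
        rw [hcon, card_empty] at d0 d2
        have := card_pos.2 hb'
        omega
      obtain ⟨x, hx⟩ := hb'
      obtain ⟨y, hy⟩ := hy'
      simp only [mem_inter, mem_sdiff] at hx hy
      exact ⟨1, {x, y}, Or.inl rfl, all _ _ (s2' _ _ _ hx.1.2 hy.1.1) (s2 _ _ _ hx.1.1 hy.2)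
        (s2' _ _ _ hx.2 hy.1.2)⟩
    · rw [not_nonempty_iff_eq_empty] at hb'
      rw [hb', card_empty] at d1
      by_cases hc' : ((A2 \ A0) \ A1).Nonempty
      · have hx' : ((A0 ∩ A1) \ A2).Nonempty := by
          by_contra hcon
          rw [not_nonempty_iff_eq_empty] at hcon
          rw [hcon, card_empty] at d0 d1
          have := card_pos.2 hc'
          omega
        obtain ⟨x, hx⟩ := hx'
        obtain ⟨y, hy⟩ := hc'
        simp only [mem_inter, mem_sdiff] at hx hy
        exact ⟨1, {x, y}, Or.inl rfl, all _ _ (s2 _ _ _ hx.1.1 hy.1.2) (s2 _ _ _ hx.1.2 hy.2)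
          (s2' _ _ _ hx.2 hy.1.1)⟩
      · rw [not_nonempty_iff_eq_empty] at hc'
        rw [hc', card_empty] at d2
        have hx' : ((A0 ∩ A1) \ A2).Nonempty := by
          rw [← card_pos]
          omega
        have hy' : ((A0 ∩ A2) \ A1).Nonempty := by
          rw [← card_pos]
          omega
        have hz' : ((A1 ∩ A2) \ A0).Nonempty := by
          rw [← card_pos]
          omega
        obtain ⟨x, hx⟩ := hx'
        obtain ⟨y, hy⟩ := hy'
        obtain ⟨z, hz⟩ := hz'
        simp only [mem_inter, mem_sdiff] at hx hy hz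
        refine ⟨2, {x, y, z}, Or.inr rfl, all _ _ ?_ ?_ ?_⟩
        · rw [card_eq_two]
          refine ⟨x, y, by rintro rfl; exact hx.2 hy.1.2, ?_⟩
          ext w
          simp only [mem_inter, mem_insert, mem_singleton]
          constructor
          · rintro ⟨h1, h2 | h2 | h2⟩
            · exact Or.inl h2
            · exact Or.inr h2
            · subst h2
              exact absurd h1 hz.2
          · rintro (rfl | rfl)
            · exact ⟨hx.1.1, Or.inl rfl⟩
            · exact ⟨hy.1.1, Or.inr (Or.inl rfl)⟩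
        · rw [card_eq_two]
          refine ⟨x, z, by rintro rfl; exact hx.2 hz.1.2, ?_⟩
          ext w
          simp only [mem_inter, mem_insert, mem_singleton]
          constructor
          · rintro ⟨h1, h2 | h2 | h2⟩
            · exact Or.inl h2
            · subst h2
              exact absurd h1 hy.2
            · exact Or.inr h2
          · rintro (rfl | rfl)
            · exact ⟨hx.1.2, Or.inl rfl⟩
            · exact ⟨hz.1.1, Or.inr (Or.inr rfl)⟩
        · rw [card_eq_two]
          refine ⟨y, z, by rintro rfl; exact hy.2 hz.1.1, ?_⟩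
          ext w
          simp only [mem_inter, mem_insert, mem_singleton]
          constructor
          · rintro ⟨h1, h2 | h2 | h2⟩
            · subst h2
              exact absurd h1 hx.2
            · exact Or.inl h2
            · exact Or.inr h2
          · rintro (rfl | rfl)
            · exact ⟨hy.1.2, Or.inr (Or.inl rfl)⟩
            · exact ⟨hz.1.2, Or.inr (Or.inr rfl)⟩

/-- **Three lists.** -/
theorem three {V : Type} [Finite V] {H : SimpleGraph V} (hH : CF H) (k : ℕ) (W : Set V)
    (hk : KCol H W k) (A : Fin 3 → Finset ℕ) (hA : ∀ i, k ≤ (A i).card) (L : V → Finset ℕ)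
    (hL : ∀ v ∈ W, ∃ i, A i ⊆ L v) : Col H W L := by
  classical
  obtain ⟨B, hB⟩ := shrink k A hA
  have : ∀ v, ∃ i, v ∈ W → A i ⊆ L v := by
    intro v
    by_cases hv : v ∈ W
    · obtain ⟨i, hi⟩ := hL v hv
      exact ⟨i, fun _ => hi⟩
    · exact ⟨0, fun h => absurd h hv⟩
  choose t ht using this
  have h := assemble H t (fun d => d = 1 ∨ d = 2) (fun d hd W' hW' B' hB' =>
    good12 hH t d hd W' hW' B' hB') (fun k A => ∀ i, (A i).card = k) (by
      intro k A hA hk
      obtain ⟨d, P, hd, hP⟩ := block3 k hk A hA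
      have hle : d ≤ k := by
        rw [← hP 0, ← hA 0]
        exact card_le_card inter_subset_left
      refine ⟨d, P, by omega, hle, hd, hP, ?_⟩
      intro i
      have h5 := card_sdiff_add_card_inter (A i) P
      rw [hA i, hP i] at h5
      show (A i \ P).card = k - d
      omega) k B (fun i => (hB i).2) W hk
  exact h.mono (fun v hv => ((hB (t v)).1).trans (ht v hv))

end Pool.Agent.H8.Few
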