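import Pool.Agent.H8.Few.Blocks

/-!
# Finitely many kinds of blocks for a bounded number of lists
-/

set_option autoImplicit false

namespace Pool.Agent.H8.Few

open Finset

section types

variable {s : ℕ} (A : Fin s → Finset ℕ)

/-- the colours -/
def pal : Finset ℕ := univ.biUnion A

/-- the set of lists which contain the colour -/
def typ (x : ℕ) : Finset (Fin s) := univ.filter fun i => x ∈ A i

/-- the number of the colours of type `T` -/
def cnt (T : Finset (Fin s)) : ℕ := ((pal A).filter fun x => typ A x = T).card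

theorem card_eq_sum_cnt (i : Fin s) : (A i).card = ∑ T ∈ univ.filter (fun T => i ∈ T), cnt A T := by
  classical
  have h1 : A i = (univ.filter fun T : Finset (Fin s) => i ∈ T).biUnion
      (fun T => (pal A).filter fun x => typ A x = T) := by
    ext x
    simp only [mem_biUnion, mem_filter, mem_univ, true_and, pal, typ]
    constructor
    · intro hx
      exact ⟨_, by simpa using hx, ⟨i, hx⟩, rfl⟩
    · rintro ⟨T, hT, -, rfl⟩
      simpa using hT
  conv_lhs => rw [h1]
  rw [card_biUnion]
  · rfl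
  · intro T _ T' _ hne
    rw [Function.onFun, disjoint_left]
    intro x h2 h3
    rw [mem_filter] at h2 h3
    exact hne (h2.2.symm.trans h3.2)

/-- Extracting a block with given numbers of colours. -/
theorem extract (m : Finset (Fin s) → ℕ) (hm : ∀ T, T.Nonempty → m T ≤ cnt A T) (d : ℕ)
    (hd : ∀ i, ∑ T ∈ univ.filter (fun T => i ∈ T), m T = d) :
    ∃ P : Finset ℕ, ∀ i, (A i ∩ P).card = d := by
  classical
  have : ∀ T : Finset (Fin s), ∃ Q : Finset ℕ, T.Nonempty →
      Q ⊆ (pal A).filter (fun x => typ A x = T) ∧ Q.card = m T := by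
    intro T
    by_cases hT : T.Nonempty
    · obtain ⟨Q, hQ⟩ := exists_subset_card_eq (hm T hT)
      exact ⟨Q, fun _ => hQ⟩
    · exact ⟨∅, fun h => absurd h hT⟩
  choose Q hQ using this
  refine ⟨(univ.filter fun T : Finset (Fin s) => T.Nonempty).biUnion Q, fun i => ?_⟩
  have h1 : A i ∩ (univ.filter fun T : Finset (Fin s) => T.Nonempty).biUnion Q =
      (univ.filter fun T : Finset (Fin s) => i ∈ T).biUnion Q := by
    ext x
    simp only [mem_inter, mem_biUnion, mem_filter, mem_univ, true_and]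
    constructor
    · rintro ⟨h1, T, hT, hx⟩
      refine ⟨T, ?_, hx⟩
      have h2 := (mem_filter.1 ((hQ T hT).1 hx)).2
      rw [← h2]
      simpa [typ] using h1
    · rintro ⟨T, hT, hx⟩
      have h2 := (mem_filter.1 ((hQ T ⟨i, hT⟩).1 hx)).2
      refine ⟨?_, T, ⟨i, hT⟩, hx⟩
      rw [← h2] at hT
      simpa [typ] using hT
  rw [h1, card_biUnion]
  · rw [← hd i]
    apply sum_congr rfl
    intro T hT
    exact (hQ T ⟨i, (mem_filter.1 hT).2⟩).2
  · intro T hT T' hT' hne
    rw [Function.onFun, disjoint_left]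
    intro x h2 h3
    have e1 := (mem_filter.1 ((hQ T ⟨i, (mem_filter.1 hT).2⟩).1 h2)).2
    have e2 := (mem_filter.1 ((hQ T' ⟨i, (mem_filter.1 hT').2⟩).1 h3)).2
    exact hne (e1.symm.trans e2)

end types

/-- balanced collections of types -/
def Bal (s : ℕ) (n : Finset (Fin s) → ℕ) (d : ℕ) : Prop :=
  ∀ i, ∑ T ∈ univ.filter (fun T => i ∈ T), n T = d

/-- **Dickson's lemma for balanced collections.** -/
theorem dickson (s : ℕ) : ∃ K : ℕ, ∀ (k : ℕ) (n : Finset (Fin s) → ℕ), 0 < k → Bal s n k →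
    ∃ (d : ℕ) (m : Finset (Fin s) → ℕ), 0 < d ∧ d ≤ K ∧ Bal s m d ∧ m ≤ n := by
  classical
  by_contra hcon
  push Not at hcon
  choose kk nn hk hn hbad using hcon
  -- a sequence of bounds
  let κ : ℕ → ℕ := fun j => Nat.rec 0 (fun _ r => max r (kk r)) j
  have κs : ∀ j, κ (j + 1) = max (κ j) (kk (κ j)) := fun j => rfl
  have κm : Monotone κ := monotone_nat_of_le_succ fun j => by
    rw [κs]
    exact le_max_left _ _
  have κk : ∀ i j, i < j → kk (κ i) ≤ κ j := by
    intro i j hij
    have h1 : κ (i + 1) ≤ κ j := κm hij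
    rw [κs] at h1
    exact (le_max_right _ _).trans h1
  obtain ⟨i, j, hij, hle⟩ := wellQuasiOrdered_le (α := Finset (Fin s) → ℕ) (fun j => nn (κ j))
  exact hbad (κ j) (kk (κ i)) (nn (κ i)) (hk _) (κk i j hij) (hn _) hle

/-- **The finite reduction**, for the lists of an arbitrary graph: it suffices to consider the lists
of size at most `K s`. -/
theorem reduce (s : ℕ) : ∃ K : ℕ, ∀ (V : Type) (H : SimpleGraph V),
    (∀ d ≤ K, ∀ W : Set V, KCol H W d → ∀ A : Fin s → Finset ℕ, (∀ i, (A i).card = d) →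
      ∀ t : V → Fin s, Col H W (fun v => A (t v))) →
    ∀ (k : ℕ) (W : Set V), KCol H W k → ∀ A : Fin s → Finset ℕ, (∀ i, (A i).card = k) →
      ∀ t : V → Fin s, Col H W (fun v => A (t v)) := by
  classical
  obtain ⟨K, hK⟩ := dickson s
  refine ⟨K, ?_⟩
  intro V H hbase k W hW A hA t
  rcases Nat.eq_zero_or_pos s with hs | hs
  · subst hs
    refine ⟨fun _ => 0, fun v _ => (t v).elim0, fun v _ => (t v).elim0⟩
  let i0 : Fin s := ⟨0, hs⟩
  refine assemble H t (fun d => d ≤ K) (fun d hd W' hW' B hB => hbase d hd W' hW' B hB t)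
    (fun k A => ∀ i, (A i).card = k) ?_ k A hA W hW
  intro k A hA hk
  obtain ⟨d, m, hd0, hdK, hm, hle⟩ := hK k (cnt A) (Nat.pos_of_ne_zero hk)
    (fun i => by rw [← card_eq_sum_cnt]; exact hA i)
  obtain ⟨P, hP⟩ := extract A m (fun T _ => hle T) d hm
  have hdk : d ≤ k := by
    rw [← hP i0, ← hA i0]
    exact card_le_card inter_subset_left
  refine ⟨d, P, hd0, hdk, hdK, hP, ?_⟩
  intro i
  have h5 := card_sdiff_add_card_inter (A i) P
  rw [hA i, hP i] at h5
  show (A i \ P).card = k - d
  omega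

end Pool.Agent.H8.Few
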