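import Pool.Agent.H8.Few.Dickson

/-!
# Four lists: blocks of depth at most three
-/

set_option autoImplicit false

namespace Pool.Agent.H8.Few

open Finset

theorem sum_count (i : Fin 4) (l : List (Finset (Fin 4))) :
    ∑ T ∈ univ.filter (fun T => i ∈ T), l.count T = (l.filter (fun T => i ∈ T)).length := by
  induction l with
  | nil => simp
  | cons a l ih =>
    simp only [List.count_cons, sum_add_distrib, ih, List.filter_cons]
    have h1 : ∑ T ∈ univ.filter (fun T => i ∈ T), (if (a == T) = true then 1 else 0) =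
        if i ∈ a then 1 else 0 := by
      simp only [beq_iff_eq, sum_ite_eq, mem_filter, mem_univ, true_and]
    rw [h1]
    by_cases h : i ∈ a
    · simp [h]
    · simp [h]

/-- the property: some block of depth at most three; if the depth is three then some type has three
elements -/
def Blk (n : Finset (Fin 4) → ℕ) : Prop :=
  ∃ (d : ℕ) (m : Finset (Fin 4) → ℕ), 0 < d ∧ d ≤ 3 ∧ (d ≤ 2 ∨ ∃ T, T.card = 3 ∧ 0 < m T) ∧
    Bal 4 m d ∧ m ≤ n

theorem blk (n : Finset (Fin 4) → ℕ) (l : List (Finset (Fin 4))) (d : ℕ)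
    (hd : (∀ i : Fin 4, (l.filter (fun T => i ∈ T)).length = d) ∧ 0 < d ∧ d ≤ 3 ∧
      (d ≤ 2 ∨ ∃ T ∈ l, T.card = 3))
    (hn : ∀ T ∈ l, l.count T ≤ n T) : Blk n := by
  refine ⟨d, fun T => l.count T, hd.2.1, hd.2.2.1, ?_, ?_, ?_⟩
  · rcases hd.2.2.2 with h | ⟨T, hT, hT'⟩
    · exact Or.inl h
    · exact Or.inr ⟨T, hT', List.count_pos_iff.2 hT⟩
  · intro i
    rw [sum_count]
    exact hd.1 i
  · intro T
    by_cases h : T ∈ l
    · exact hn T h
    · show l.count T ≤ n T
      rw [List.count_eq_zero_of_not_mem h]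
      exact Nat.zero_le _

theorem exp0 (n : Finset (Fin 4) → ℕ) : ∑ T ∈ univ.filter (fun T => (0 : Fin 4) ∈ T), n T =
    n {0} + (n {0, 1} + (n {0, 2} + (n {0, 3} + (n {0, 1, 2} + (n {0, 1, 3} + (n {0, 2, 3} +
      n {0, 1, 2, 3})))))) := by
  have h : (univ.filter (fun T => (0 : Fin 4) ∈ T) : Finset (Finset (Fin 4))) =
      {{0}, {0, 1}, {0, 2}, {0, 3}, {0, 1, 2}, {0, 1, 3}, {0, 2, 3}, {0, 1, 2, 3}} := by decide
  rw [h]
  repeat rw [sum_insert (by decide)]
  rw [sum_singleton]

theorem exp1 (n : Finset (Fin 4) → ℕ) : ∑ T ∈ univ.filter (fun T => (1 : Fin 4) ∈ T), n T =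
    n {1} + (n {0, 1} + (n {1, 2} + (n {1, 3} + (n {0, 1, 2} + (n {0, 1, 3} + (n {1, 2, 3} +
      n {0, 1, 2, 3})))))) := by
  have h : (univ.filter (fun T => (1 : Fin 4) ∈ T) : Finset (Finset (Fin 4))) =
      {{1}, {0, 1}, {1, 2}, {1, 3}, {0, 1, 2}, {0, 1, 3}, {1, 2, 3}, {0, 1, 2, 3}} := by decide
  rw [h]
  repeat rw [sum_insert (by decide)]
  rw [sum_singleton]

theorem exp2 (n : Finset (Fin 4) → ℕ) : ∑ T ∈ univ.filter (fun T => (2 : Fin 4) ∈ T), n T =
    n {2} + (n {0, 2} + (n {1, 2} + (n {2, 3} + (n {0, 1, 2} + (n {0, 2, 3} + (n {1, 2, 3} +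
      n {0, 1, 2, 3})))))) := by
  have h : (univ.filter (fun T => (2 : Fin 4) ∈ T) : Finset (Finset (Fin 4))) =
      {{2}, {0, 2}, {1, 2}, {2, 3}, {0, 1, 2}, {0, 2, 3}, {1, 2, 3}, {0, 1, 2, 3}} := by decide
  rw [h]
  repeat rw [sum_insert (by decide)]
  rw [sum_singleton]

theorem exp3 (n : Finset (Fin 4) → ℕ) : ∑ T ∈ univ.filter (fun T => (3 : Fin 4) ∈ T), n T =
    n {3} + (n {0, 3} + (n {1, 3} + (n {2, 3} + (n {0, 1, 3} + (n {0, 2, 3} + (n {1, 2, 3} +
      n {0, 1, 2, 3})))))) := by
  have h : (univ.filter (fun T => (3 : Fin 4) ∈ T) : Finset (Finset (Fin 4))) =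
      {{3}, {0, 3}, {1, 3}, {2, 3}, {0, 1, 3}, {0, 2, 3}, {1, 2, 3}, {0, 1, 2, 3}} := by decide
  rw [h]
  repeat rw [sum_insert (by decide)]
  rw [sum_singleton]

theorem blkf (n : Finset (Fin 4) → ℕ) (l : List (Finset (Fin 4))) (d : ℕ)
    (hd : (∀ i : Fin 4, (l.filter (fun T => i ∈ T)).length = d) ∧ 0 < d ∧ d ≤ 3 ∧
      (d ≤ 2 ∨ ∃ T ∈ l, T.card = 3))
    (ps : List (Finset (Fin 4) × ℕ)) (hps : ∀ T ∈ l, (T, l.count T) ∈ ps)
    (hn : ∀ p ∈ ps, p.2 ≤ n p.1) : Blk n :=
  blk n l d hd (fun T hT => hn _ (hps T hT))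

theorem b0_1_2_3 {n : Finset (Fin 4) → ℕ} (h0 : 1 ≤ n {0}) (h1 : 1 ≤ n {1}) (h2 : 1 ≤ n {2}) (h3 : 1 ≤ n {3}) : Blk n :=
  blkf n [{0}, {1}, {2}, {3}] 1 (by decide)
    [({0}, 1), ({1}, 1), ({2}, 1), ({3}, 1)] (by decide)
    (List.forall_mem_cons.2 ⟨h0, (List.forall_mem_cons.2 ⟨h1, (List.forall_mem_cons.2 ⟨h2, (List.forall_mem_cons.2 ⟨h3, (fun _ h => absurd h List.not_mem_nil)⟩)⟩)⟩)⟩)

theorem b0_1_23 {n : Finset (Fin 4) → ℕ} (h0 : 1 ≤ n {0}) (h1 : 1 ≤ n {1}) (h2 : 1 ≤ n {2, 3}) : Blk n :=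
  blkf n [{0}, {1}, {2, 3}] 1 (by decide)
    [({0}, 1), ({1}, 1), ({2, 3}, 1)] (by decide)
    (List.forall_mem_cons.2 ⟨h0, (List.forall_mem_cons.2 ⟨h1, (List.forall_mem_cons.2 ⟨h2, (fun _ h => absurd h List.not_mem_nil)⟩)⟩)⟩)

theorem b0_12_3 {n : Finset (Fin 4) → ℕ} (h0 : 1 ≤ n {0}) (h1 : 1 ≤ n {1, 2}) (h2 : 1 ≤ n {3}) : Blk n :=
  blkf n [{0}, {1, 2}, {3}] 1 (by decide)
    [({0}, 1), ({1, 2}, 1), ({3}, 1)] (by decide)
    (List.forall_mem_cons.2 ⟨h0, (List.forall_mem_cons.2 ⟨h1, (List.forall_mem_cons.2 ⟨h2, (fun _ h => absurd h List.not_mem_nil)⟩)⟩)⟩)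

theorem b0_13_2 {n : Finset (Fin 4) → ℕ} (h0 : 1 ≤ n {0}) (h1 : 1 ≤ n {1, 3}) (h2 : 1 ≤ n {2}) : Blk n :=
  blkf n [{0}, {1, 3}, {2}] 1 (by decide)
    [({0}, 1), ({1, 3}, 1), ({2}, 1)] (by decide)
    (List.forall_mem_cons.2 ⟨h0, (List.forall_mem_cons.2 ⟨h1, (List.forall_mem_cons.2 ⟨h2, (fun _ h => absurd h List.not_mem_nil)⟩)⟩)⟩)

theorem b0_123 {n : Finset (Fin 4) → ℕ} (h0 : 1 ≤ n {0}) (h1 : 1 ≤ n {1, 2, 3}) : Blk n :=
  blkf n [{0}, {1, 2, 3}] 1 (by decide)
    [({0}, 1), ({1, 2, 3}, 1)] (by decide)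
    (List.forall_mem_cons.2 ⟨h0, (List.forall_mem_cons.2 ⟨h1, (fun _ h => absurd h List.not_mem_nil)⟩)⟩)

theorem b01_2_3 {n : Finset (Fin 4) → ℕ} (h0 : 1 ≤ n {0, 1}) (h1 : 1 ≤ n {2}) (h2 : 1 ≤ n {3}) : Blk n :=
  blkf n [{0, 1}, {2}, {3}] 1 (by decide)
    [({0, 1}, 1), ({2}, 1), ({3}, 1)] (by decide)
    (List.forall_mem_cons.2 ⟨h0, (List.forall_mem_cons.2 ⟨h1, (List.forall_mem_cons.2 ⟨h2, (fun _ h => absurd h List.not_mem_nil)⟩)⟩)⟩)

theorem b01_23 {n : Finset (Fin 4) → ℕ} (h0 : 1 ≤ n {0, 1}) (h1 : 1 ≤ n {2, 3}) : Blk n :=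
  blkf n [{0, 1}, {2, 3}] 1 (by decide)
    [({0, 1}, 1), ({2, 3}, 1)] (by decide)
    (List.forall_mem_cons.2 ⟨h0, (List.forall_mem_cons.2 ⟨h1, (fun _ h => absurd h List.not_mem_nil)⟩)⟩)

theorem b02_1_3 {n : Finset (Fin 4) → ℕ} (h0 : 1 ≤ n {0, 2}) (h1 : 1 ≤ n {1}) (h2 : 1 ≤ n {3}) : Blk n :=
  blkf n [{0, 2}, {1}, {3}] 1 (by decide)
    [({0, 2}, 1), ({1}, 1), ({3}, 1)] (by decide)
    (List.forall_mem_cons.2 ⟨h0, (List.forall_mem_cons.2 ⟨h1, (List.forall_mem_cons.2 ⟨h2, (fun _ h => absurd h List.not_mem_nil)⟩)⟩)⟩)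

theorem b02_13 {n : Finset (Fin 4) → ℕ} (h0 : 1 ≤ n {0, 2}) (h1 : 1 ≤ n {1, 3}) : Blk n :=
  blkf n [{0, 2}, {1, 3}] 1 (by decide)
    [({0, 2}, 1), ({1, 3}, 1)] (by decide)
    (List.forall_mem_cons.2 ⟨h0, (List.forall_mem_cons.2 ⟨h1, (fun _ h => absurd h List.not_mem_nil)⟩)⟩)

theorem b03_1_2 {n : Finset (Fin 4) → ℕ} (h0 : 1 ≤ n {0, 3}) (h1 : 1 ≤ n {1}) (h2 : 1 ≤ n {2}) : Blk n :=
  blkf n [{0, 3}, {1}, {2}] 1 (by decide)
    [({0, 3}, 1), ({1}, 1), ({2}, 1)] (by decide)
    (List.forall_mem_cons.2 ⟨h0, (List.forall_mem_cons.2 ⟨h1, (List.forall_mem_cons.2 ⟨h2, (fun _ h => absurd h List.not_mem_nil)⟩)⟩)⟩)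

theorem b03_12 {n : Finset (Fin 4) → ℕ} (h0 : 1 ≤ n {0, 3}) (h1 : 1 ≤ n {1, 2}) : Blk n :=
  blkf n [{0, 3}, {1, 2}] 1 (by decide)
    [({0, 3}, 1), ({1, 2}, 1)] (by decide)
    (List.forall_mem_cons.2 ⟨h0, (List.forall_mem_cons.2 ⟨h1, (fun _ h => absurd h List.not_mem_nil)⟩)⟩)

theorem b012_3 {n : Finset (Fin 4) → ℕ} (h0 : 1 ≤ n {0, 1, 2}) (h1 : 1 ≤ n {3}) : Blk n :=
  blkf n [{0, 1, 2}, {3}] 1 (by decide)
    [({0, 1, 2}, 1), ({3}, 1)] (by decide)
    (List.forall_mem_cons.2 ⟨h0, (List.forall_mem_cons.2 ⟨h1, (fun _ h => absurd h List.not_mem_nil)⟩)⟩)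

theorem b013_2 {n : Finset (Fin 4) → ℕ} (h0 : 1 ≤ n {0, 1, 3}) (h1 : 1 ≤ n {2}) : Blk n :=
  blkf n [{0, 1, 3}, {2}] 1 (by decide)
    [({0, 1, 3}, 1), ({2}, 1)] (by decide)
    (List.forall_mem_cons.2 ⟨h0, (List.forall_mem_cons.2 ⟨h1, (fun _ h => absurd h List.not_mem_nil)⟩)⟩)

theorem b023_1 {n : Finset (Fin 4) → ℕ} (h0 : 1 ≤ n {0, 2, 3}) (h1 : 1 ≤ n {1}) : Blk n :=
  blkf n [{0, 2, 3}, {1}] 1 (by decide)
    [({0, 2, 3}, 1), ({1}, 1)] (by decide)
    (List.forall_mem_cons.2 ⟨h0, (List.forall_mem_cons.2 ⟨h1, (fun _ h => absurd h List.not_mem_nil)⟩)⟩)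

theorem b0123 {n : Finset (Fin 4) → ℕ} (h0 : 1 ≤ n {0, 1, 2, 3}) : Blk n :=
  blkf n [{0, 1, 2, 3}] 1 (by decide)
    [({0, 1, 2, 3}, 1)] (by decide)
    (List.forall_mem_cons.2 ⟨h0, (fun _ h => absurd h List.not_mem_nil)⟩)

theorem b12_13_23_0x2 {n : Finset (Fin 4) → ℕ} (h0 : 1 ≤ n {1, 2}) (h1 : 1 ≤ n {1, 3}) (h2 : 1 ≤ n {2, 3}) (h3 : 2 ≤ n {0}) : Blk n :=
  blkf n [{1, 2}, {1, 3}, {2, 3}, {0}, {0}] 2 (by decide)
    [({1, 2}, 1), ({1, 3}, 1), ({2, 3}, 1), ({0}, 2)] (by decide)
    (List.forall_mem_cons.2 ⟨h0, (List.forall_mem_cons.2 ⟨h1, (List.forall_mem_cons.2 ⟨h2, (List.forall_mem_cons.2 ⟨h3, (fun _ h => absurd h List.not_mem_nil)⟩)⟩)⟩)⟩)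

theorem b02_03_23_1x2 {n : Finset (Fin 4) → ℕ} (h0 : 1 ≤ n {0, 2}) (h1 : 1 ≤ n {0, 3}) (h2 : 1 ≤ n {2, 3}) (h3 : 2 ≤ n {1}) : Blk n :=
  blkf n [{0, 2}, {0, 3}, {2, 3}, {1}, {1}] 2 (by decide)
    [({0, 2}, 1), ({0, 3}, 1), ({2, 3}, 1), ({1}, 2)] (by decide)
    (List.forall_mem_cons.2 ⟨h0, (List.forall_mem_cons.2 ⟨h1, (List.forall_mem_cons.2 ⟨h2, (List.forall_mem_cons.2 ⟨h3, (fun _ h => absurd h List.not_mem_nil)⟩)⟩)⟩)⟩)

theorem b01_03_13_2x2 {n : Finset (Fin 4) → ℕ} (h0 : 1 ≤ n {0, 1}) (h1 : 1 ≤ n {0, 3}) (h2 : 1 ≤ n {1, 3}) (h3 : 2 ≤ n {2}) : Blk n :=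
  blkf n [{0, 1}, {0, 3}, {1, 3}, {2}, {2}] 2 (by decide)
    [({0, 1}, 1), ({0, 3}, 1), ({1, 3}, 1), ({2}, 2)] (by decide)
    (List.forall_mem_cons.2 ⟨h0, (List.forall_mem_cons.2 ⟨h1, (List.forall_mem_cons.2 ⟨h2, (List.forall_mem_cons.2 ⟨h3, (fun _ h => absurd h List.not_mem_nil)⟩)⟩)⟩)⟩)

theorem b01_02_12_3x2 {n : Finset (Fin 4) → ℕ} (h0 : 1 ≤ n {0, 1}) (h1 : 1 ≤ n {0, 2}) (h2 : 1 ≤ n {1, 2}) (h3 : 2 ≤ n {3}) : Blk n :=
  blkf n [{0, 1}, {0, 2}, {1, 2}, {3}, {3}] 2 (by decide)
    [({0, 1}, 1), ({0, 2}, 1), ({1, 2}, 1), ({3}, 2)] (by decide)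
    (List.forall_mem_cons.2 ⟨h0, (List.forall_mem_cons.2 ⟨h1, (List.forall_mem_cons.2 ⟨h2, (List.forall_mem_cons.2 ⟨h3, (fun _ h => absurd h List.not_mem_nil)⟩)⟩)⟩)⟩)

theorem b123_023_01 {n : Finset (Fin 4) → ℕ} (h0 : 1 ≤ n {1, 2, 3}) (h1 : 1 ≤ n {0, 2, 3}) (h2 : 1 ≤ n {0, 1}) : Blk n :=
  blkf n [{1, 2, 3}, {0, 2, 3}, {0, 1}] 2 (by decide)
    [({1, 2, 3}, 1), ({0, 2, 3}, 1), ({0, 1}, 1)] (by decide)
    (List.forall_mem_cons.2 ⟨h0, (List.forall_mem_cons.2 ⟨h1, (List.forall_mem_cons.2 ⟨h2, (fun _ h => absurd h List.not_mem_nil)⟩)⟩)⟩)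

theorem b123_013_02 {n : Finset (Fin 4) → ℕ} (h0 : 1 ≤ n {1, 2, 3}) (h1 : 1 ≤ n {0, 1, 3}) (h2 : 1 ≤ n {0, 2}) : Blk n :=
  blkf n [{1, 2, 3}, {0, 1, 3}, {0, 2}] 2 (by decide)
    [({1, 2, 3}, 1), ({0, 1, 3}, 1), ({0, 2}, 1)] (by decide)
    (List.forall_mem_cons.2 ⟨h0, (List.forall_mem_cons.2 ⟨h1, (List.forall_mem_cons.2 ⟨h2, (fun _ h => absurd h List.not_mem_nil)⟩)⟩)⟩)

theorem b123_012_03 {n : Finset (Fin 4) → ℕ} (h0 : 1 ≤ n {1, 2, 3}) (h1 : 1 ≤ n {0, 1, 2}) (h2 : 1 ≤ n {0, 3}) : Blk n :=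
  blkf n [{1, 2, 3}, {0, 1, 2}, {0, 3}] 2 (by decide)
    [({1, 2, 3}, 1), ({0, 1, 2}, 1), ({0, 3}, 1)] (by decide)
    (List.forall_mem_cons.2 ⟨h0, (List.forall_mem_cons.2 ⟨h1, (List.forall_mem_cons.2 ⟨h2, (fun _ h => absurd h List.not_mem_nil)⟩)⟩)⟩)

theorem b023_013_12 {n : Finset (Fin 4) → ℕ} (h0 : 1 ≤ n {0, 2, 3}) (h1 : 1 ≤ n {0, 1, 3}) (h2 : 1 ≤ n {1, 2}) : Blk n :=
  blkf n [{0, 2, 3}, {0, 1, 3}, {1, 2}] 2 (by decide)
    [({0, 2, 3}, 1), ({0, 1, 3}, 1), ({1, 2}, 1)] (by decide)
    (List.forall_mem_cons.2 ⟨h0, (List.forall_mem_cons.2 ⟨h1, (List.forall_mem_cons.2 ⟨h2, (fun _ h => absurd h List.not_mem_nil)⟩)⟩)⟩)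

theorem b023_012_13 {n : Finset (Fin 4) → ℕ} (h0 : 1 ≤ n {0, 2, 3}) (h1 : 1 ≤ n {0, 1, 2}) (h2 : 1 ≤ n {1, 3}) : Blk n :=
  blkf n [{0, 2, 3}, {0, 1, 2}, {1, 3}] 2 (by decide)
    [({0, 2, 3}, 1), ({0, 1, 2}, 1), ({1, 3}, 1)] (by decide)
    (List.forall_mem_cons.2 ⟨h0, (List.forall_mem_cons.2 ⟨h1, (List.forall_mem_cons.2 ⟨h2, (fun _ h => absurd h List.not_mem_nil)⟩)⟩)⟩)

theorem b013_012_23 {n : Finset (Fin 4) → ℕ} (h0 : 1 ≤ n {0, 1, 3}) (h1 : 1 ≤ n {0, 1, 2}) (h2 : 1 ≤ n {2, 3}) : Blk n :=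
  blkf n [{0, 1, 3}, {0, 1, 2}, {2, 3}] 2 (by decide)
    [({0, 1, 3}, 1), ({0, 1, 2}, 1), ({2, 3}, 1)] (by decide)
    (List.forall_mem_cons.2 ⟨h0, (List.forall_mem_cons.2 ⟨h1, (List.forall_mem_cons.2 ⟨h2, (fun _ h => absurd h List.not_mem_nil)⟩)⟩)⟩)

theorem b123_02_03_1 {n : Finset (Fin 4) → ℕ} (h0 : 1 ≤ n {1, 2, 3}) (h1 : 1 ≤ n {0, 2}) (h2 : 1 ≤ n {0, 3}) (h3 : 1 ≤ n {1}) : Blk n :=
  blkf n [{1, 2, 3}, {0, 2}, {0, 3}, {1}] 2 (by decide)
    [({1, 2, 3}, 1), ({0, 2}, 1), ({0, 3}, 1), ({1}, 1)] (by decide)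
    (List.forall_mem_cons.2 ⟨h0, (List.forall_mem_cons.2 ⟨h1, (List.forall_mem_cons.2 ⟨h2, (List.forall_mem_cons.2 ⟨h3, (fun _ h => absurd h List.not_mem_nil)⟩)⟩)⟩)⟩)

theorem b123_01_03_2 {n : Finset (Fin 4) → ℕ} (h0 : 1 ≤ n {1, 2, 3}) (h1 : 1 ≤ n {0, 1}) (h2 : 1 ≤ n {0, 3}) (h3 : 1 ≤ n {2}) : Blk n :=
  blkf n [{1, 2, 3}, {0, 1}, {0, 3}, {2}] 2 (by decide)
    [({1, 2, 3}, 1), ({0, 1}, 1), ({0, 3}, 1), ({2}, 1)] (by decide)
    (List.forall_mem_cons.2 ⟨h0, (List.forall_mem_cons.2 ⟨h1, (List.forall_mem_cons.2 ⟨h2, (List.forall_mem_cons.2 ⟨h3, (fun _ h => absurd h List.not_mem_nil)⟩)⟩)⟩)⟩)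

theorem b123_01_02_3 {n : Finset (Fin 4) → ℕ} (h0 : 1 ≤ n {1, 2, 3}) (h1 : 1 ≤ n {0, 1}) (h2 : 1 ≤ n {0, 2}) (h3 : 1 ≤ n {3}) : Blk n :=
  blkf n [{1, 2, 3}, {0, 1}, {0, 2}, {3}] 2 (by decide)
    [({1, 2, 3}, 1), ({0, 1}, 1), ({0, 2}, 1), ({3}, 1)] (by decide)
    (List.forall_mem_cons.2 ⟨h0, (List.forall_mem_cons.2 ⟨h1, (List.forall_mem_cons.2 ⟨h2, (List.forall_mem_cons.2 ⟨h3, (fun _ h => absurd h List.not_mem_nil)⟩)⟩)⟩)⟩)

theorem b023_12_13_0 {n : Finset (Fin 4) → ℕ} (h0 : 1 ≤ n {0, 2, 3}) (h1 : 1 ≤ n {1, 2}) (h2 : 1 ≤ n {1, 3}) (h3 : 1 ≤ n {0}) : Blk n :=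
  blkf n [{0, 2, 3}, {1, 2}, {1, 3}, {0}] 2 (by decide)
    [({0, 2, 3}, 1), ({1, 2}, 1), ({1, 3}, 1), ({0}, 1)] (by decide)
    (List.forall_mem_cons.2 ⟨h0, (List.forall_mem_cons.2 ⟨h1, (List.forall_mem_cons.2 ⟨h2, (List.forall_mem_cons.2 ⟨h3, (fun _ h => absurd h List.not_mem_nil)⟩)⟩)⟩)⟩)

theorem b023_01_13_2 {n : Finset (Fin 4) → ℕ} (h0 : 1 ≤ n {0, 2, 3}) (h1 : 1 ≤ n {0, 1}) (h2 : 1 ≤ n {1, 3}) (h3 : 1 ≤ n {2}) : Blk n :=
  blkf n [{0, 2, 3}, {0, 1}, {1, 3}, {2}] 2 (by decide)
    [({0, 2, 3}, 1), ({0, 1}, 1), ({1, 3}, 1), ({2}, 1)] (by decide)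
    (List.forall_mem_cons.2 ⟨h0, (List.forall_mem_cons.2 ⟨h1, (List.forall_mem_cons.2 ⟨h2, (List.forall_mem_cons.2 ⟨h3, (fun _ h => absurd h List.not_mem_nil)⟩)⟩)⟩)⟩)

theorem b023_01_12_3 {n : Finset (Fin 4) → ℕ} (h0 : 1 ≤ n {0, 2, 3}) (h1 : 1 ≤ n {0, 1}) (h2 : 1 ≤ n {1, 2}) (h3 : 1 ≤ n {3}) : Blk n :=
  blkf n [{0, 2, 3}, {0, 1}, {1, 2}, {3}] 2 (by decide)
    [({0, 2, 3}, 1), ({0, 1}, 1), ({1, 2}, 1), ({3}, 1)] (by decide)
    (List.forall_mem_cons.2 ⟨h0, (List.forall_mem_cons.2 ⟨h1, (List.forall_mem_cons.2 ⟨h2, (List.forall_mem_cons.2 ⟨h3, (fun _ h => absurd h List.not_mem_nil)⟩)⟩)⟩)⟩)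

theorem b013_12_23_0 {n : Finset (Fin 4) → ℕ} (h0 : 1 ≤ n {0, 1, 3}) (h1 : 1 ≤ n {1, 2}) (h2 : 1 ≤ n {2, 3}) (h3 : 1 ≤ n {0}) : Blk n :=
  blkf n [{0, 1, 3}, {1, 2}, {2, 3}, {0}] 2 (by decide)
    [({0, 1, 3}, 1), ({1, 2}, 1), ({2, 3}, 1), ({0}, 1)] (by decide)
    (List.forall_mem_cons.2 ⟨h0, (List.forall_mem_cons.2 ⟨h1, (List.forall_mem_cons.2 ⟨h2, (List.forall_mem_cons.2 ⟨h3, (fun _ h => absurd h List.not_mem_nil)⟩)⟩)⟩)⟩)

theorem b013_02_23_1 {n : Finset (Fin 4) → ℕ} (h0 : 1 ≤ n {0, 1, 3}) (h1 : 1 ≤ n {0, 2}) (h2 : 1 ≤ n {2, 3}) (h3 : 1 ≤ n {1}) : Blk n :=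
  blkf n [{0, 1, 3}, {0, 2}, {2, 3}, {1}] 2 (by decide)
    [({0, 1, 3}, 1), ({0, 2}, 1), ({2, 3}, 1), ({1}, 1)] (by decide)
    (List.forall_mem_cons.2 ⟨h0, (List.forall_mem_cons.2 ⟨h1, (List.forall_mem_cons.2 ⟨h2, (List.forall_mem_cons.2 ⟨h3, (fun _ h => absurd h List.not_mem_nil)⟩)⟩)⟩)⟩)

theorem b013_02_12_3 {n : Finset (Fin 4) → ℕ} (h0 : 1 ≤ n {0, 1, 3}) (h1 : 1 ≤ n {0, 2}) (h2 : 1 ≤ n {1, 2}) (h3 : 1 ≤ n {3}) : Blk n :=
  blkf n [{0, 1, 3}, {0, 2}, {1, 2}, {3}] 2 (by decide)
    [({0, 1, 3}, 1), ({0, 2}, 1), ({1, 2}, 1), ({3}, 1)] (by decide)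
    (List.forall_mem_cons.2 ⟨h0, (List.forall_mem_cons.2 ⟨h1, (List.forall_mem_cons.2 ⟨h2, (List.forall_mem_cons.2 ⟨h3, (fun _ h => absurd h List.not_mem_nil)⟩)⟩)⟩)⟩)

theorem b012_13_23_0 {n : Finset (Fin 4) → ℕ} (h0 : 1 ≤ n {0, 1, 2}) (h1 : 1 ≤ n {1, 3}) (h2 : 1 ≤ n {2, 3}) (h3 : 1 ≤ n {0}) : Blk n :=
  blkf n [{0, 1, 2}, {1, 3}, {2, 3}, {0}] 2 (by decide)
    [({0, 1, 2}, 1), ({1, 3}, 1), ({2, 3}, 1), ({0}, 1)] (by decide)
    (List.forall_mem_cons.2 ⟨h0, (List.forall_mem_cons.2 ⟨h1, (List.forall_mem_cons.2 ⟨h2, (List.forall_mem_cons.2 ⟨h3, (fun _ h => absurd h List.not_mem_nil)⟩)⟩)⟩)⟩)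

theorem b012_03_23_1 {n : Finset (Fin 4) → ℕ} (h0 : 1 ≤ n {0, 1, 2}) (h1 : 1 ≤ n {0, 3}) (h2 : 1 ≤ n {2, 3}) (h3 : 1 ≤ n {1}) : Blk n :=
  blkf n [{0, 1, 2}, {0, 3}, {2, 3}, {1}] 2 (by decide)
    [({0, 1, 2}, 1), ({0, 3}, 1), ({2, 3}, 1), ({1}, 1)] (by decide)
    (List.forall_mem_cons.2 ⟨h0, (List.forall_mem_cons.2 ⟨h1, (List.forall_mem_cons.2 ⟨h2, (List.forall_mem_cons.2 ⟨h3, (fun _ h => absurd h List.not_mem_nil)⟩)⟩)⟩)⟩)

theorem b012_03_13_2 {n : Finset (Fin 4) → ℕ} (h0 : 1 ≤ n {0, 1, 2}) (h1 : 1 ≤ n {0, 3}) (h2 : 1 ≤ n {1, 3}) (h3 : 1 ≤ n {2}) : Blk n :=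
  blkf n [{0, 1, 2}, {0, 3}, {1, 3}, {2}] 2 (by decide)
    [({0, 1, 2}, 1), ({0, 3}, 1), ({1, 3}, 1), ({2}, 1)] (by decide)
    (List.forall_mem_cons.2 ⟨h0, (List.forall_mem_cons.2 ⟨h1, (List.forall_mem_cons.2 ⟨h2, (List.forall_mem_cons.2 ⟨h3, (fun _ h => absurd h List.not_mem_nil)⟩)⟩)⟩)⟩)

theorem b123_023_013_012 {n : Finset (Fin 4) → ℕ} (h0 : 1 ≤ n {1, 2, 3}) (h1 : 1 ≤ n {0, 2, 3}) (h2 : 1 ≤ n {0, 1, 3}) (h3 : 1 ≤ n {0, 1, 2}) : Blk n :=
  blkf n [{1, 2, 3}, {0, 2, 3}, {0, 1, 3}, {0, 1, 2}] 3 (by decide)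
    [({1, 2, 3}, 1), ({0, 2, 3}, 1), ({0, 1, 3}, 1), ({0, 1, 2}, 1)] (by decide)
    (List.forall_mem_cons.2 ⟨h0, (List.forall_mem_cons.2 ⟨h1, (List.forall_mem_cons.2 ⟨h2, (List.forall_mem_cons.2 ⟨h3, (fun _ h => absurd h List.not_mem_nil)⟩)⟩)⟩)⟩)

theorem b123x2_01_02_03 {n : Finset (Fin 4) → ℕ} (h0 : 2 ≤ n {1, 2, 3}) (h1 : 1 ≤ n {0, 1}) (h2 : 1 ≤ n {0, 2}) (h3 : 1 ≤ n {0, 3}) : Blk n :=
  blkf n [{1, 2, 3}, {1, 2, 3}, {0, 1}, {0, 2}, {0, 3}] 3 (by decide)
    [({1, 2, 3}, 2), ({0, 1}, 1), ({0, 2}, 1), ({0, 3}, 1)] (by decide)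
    (List.forall_mem_cons.2 ⟨h0, (List.forall_mem_cons.2 ⟨h1, (List.forall_mem_cons.2 ⟨h2, (List.forall_mem_cons.2 ⟨h3, (fun _ h => absurd h List.not_mem_nil)⟩)⟩)⟩)⟩)

theorem b023x2_01_12_13 {n : Finset (Fin 4) → ℕ} (h0 : 2 ≤ n {0, 2, 3}) (h1 : 1 ≤ n {0, 1}) (h2 : 1 ≤ n {1, 2}) (h3 : 1 ≤ n {1, 3}) : Blk n :=
  blkf n [{0, 2, 3}, {0, 2, 3}, {0, 1}, {1, 2}, {1, 3}] 3 (by decide)
    [({0, 2, 3}, 2), ({0, 1}, 1), ({1, 2}, 1), ({1, 3}, 1)] (by decide)
    (List.forall_mem_cons.2 ⟨h0, (List.forall_mem_cons.2 ⟨h1, (List.forall_mem_cons.2 ⟨h2, (List.forall_mem_cons.2 ⟨h3, (fun _ h => absurd h List.not_mem_nil)⟩)⟩)⟩)⟩)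

theorem b013x2_02_12_23 {n : Finset (Fin 4) → ℕ} (h0 : 2 ≤ n {0, 1, 3}) (h1 : 1 ≤ n {0, 2}) (h2 : 1 ≤ n {1, 2}) (h3 : 1 ≤ n {2, 3}) : Blk n :=
  blkf n [{0, 1, 3}, {0, 1, 3}, {0, 2}, {1, 2}, {2, 3}] 3 (by decide)
    [({0, 1, 3}, 2), ({0, 2}, 1), ({1, 2}, 1), ({2, 3}, 1)] (by decide)
    (List.forall_mem_cons.2 ⟨h0, (List.forall_mem_cons.2 ⟨h1, (List.forall_mem_cons.2 ⟨h2, (List.forall_mem_cons.2 ⟨h3, (fun _ h => absurd h List.not_mem_nil)⟩)⟩)⟩)⟩)

theorem b012x2_03_13_23 {n : Finset (Fin 4) → ℕ} (h0 : 2 ≤ n {0, 1, 2}) (h1 : 1 ≤ n {0, 3}) (h2 : 1 ≤ n {1, 3}) (h3 : 1 ≤ n {2, 3}) : Blk n :=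
  blkf n [{0, 1, 2}, {0, 1, 2}, {0, 3}, {1, 3}, {2, 3}] 3 (by decide)
    [({0, 1, 2}, 2), ({0, 3}, 1), ({1, 3}, 1), ({2, 3}, 1)] (by decide)
    (List.forall_mem_cons.2 ⟨h0, (List.forall_mem_cons.2 ⟨h1, (List.forall_mem_cons.2 ⟨h2, (List.forall_mem_cons.2 ⟨h3, (fun _ h => absurd h List.not_mem_nil)⟩)⟩)⟩)⟩)

/-- **The blocks of four lists.** -/
theorem four (k : ℕ) (n : Finset (Fin 4) → ℕ) (hk : 0 < k) (hb : Bal 4 n k) : Blk n := by
  have e0 := hb 0
  have e1 := hb 1
  have e2 := hb 2
  have e3 := hb 3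
  rw [exp0] at e0
  rw [exp1] at e1
  rw [exp2] at e2
  rw [exp3] at e3
  rcases Nat.eq_zero_or_pos (n {0, 1, 2, 3}) with hx0123 | hx0123
  ·
    rcases Nat.eq_zero_or_pos (n {0}) with hx0 | hx0
    ·
      rcases Nat.eq_zero_or_pos (n {0, 1, 2}) with hx012 | hx012
      ·
        rcases Nat.eq_zero_or_pos (n {0, 1}) with hx01 | hx01
        ·
          rcases Nat.eq_zero_or_pos (n {0, 2}) with hx02 | hx02
          ·
            rcases Nat.eq_zero_or_pos (n {1}) with hx1 | hx1
            ·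
              rcases Nat.eq_zero_or_pos (n {1, 2}) with hx12 | hx12
              ·
                rcases Nat.eq_zero_or_pos (n {2}) with hx2 | hx2
                ·
                  omega
                ·
                  rcases Nat.eq_zero_or_pos (n {0, 1, 3}) with hx013 | hx013
                  ·
                    omega
                  ·
                    exact b013_2 hx013 hx2
              ·
                rcases Nat.eq_zero_or_pos (n {0, 3}) with hx03 | hx03
                ·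
                  rcases Nat.eq_zero_or_pos (n {0, 1, 3}) with hx013 | hx013
                  ·
                    omega
                  ·
                    rcases Nat.eq_zero_or_pos (n {2}) with hx2 | hx2
                    ·
                      rcases Nat.eq_zero_or_pos (n {0, 2, 3}) with hx023 | hx023
                      ·
                        omega
                      ·
                        exact b023_013_12 hx023 hx013 hx12
                    ·
                      exact b013_2 hx013 hx2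
                ·
                  exact b03_12 hx03 hx12
            ·
              rcases Nat.eq_zero_or_pos (n {0, 2, 3}) with hx023 | hx023
              ·
                rcases Nat.eq_zero_or_pos (n {2}) with hx2 | hx2
                ·
                  omega
                ·
                  rcases Nat.eq_zero_or_pos (n {0, 3}) with hx03 | hx03
                  ·
                    omega
                  ·
                    exact b03_1_2 hx03 hx1 hx2
              ·
                exact b023_1 hx023 hx1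
          ·
            rcases Nat.eq_zero_or_pos (n {1, 3}) with hx13 | hx13
            ·
              rcases Nat.eq_zero_or_pos (n {1}) with hx1 | hx1
              ·
                rcases Nat.eq_zero_or_pos (n {0, 1, 3}) with hx013 | hx013
                ·
                  omega
                ·
                  rcases Nat.eq_zero_or_pos (n {2}) with hx2 | hx2
                  ·
                    rcases Nat.eq_zero_or_pos (n {1, 2, 3}) with hx123 | hx123
                    ·
                      rcases Nat.eq_zero_or_pos (n {1, 2}) with hx12 | hx12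
                      ·
                        omega
                      ·
                        rcases Nat.eq_zero_or_pos (n {3}) with hx3 | hx3
                        ·
                          rcases Nat.eq_zero_or_pos (n {0, 3}) with hx03 | hx03
                          ·
                            rcases Nat.eq_zero_or_pos (n {2, 3}) with hx23 | hx23
                            ·
                              omega
                            ·
                              exact b013x2_02_12_23 (by omega) hx02 hx12 hx23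
                          ·
                            exact b03_12 hx03 hx12
                        ·
                          exact b013_02_12_3 hx013 hx02 hx12 hx3
                    ·
                      exact b123_013_02 hx123 hx013 hx02
                  ·
                    exact b013_2 hx013 hx2
              ·
                rcases Nat.eq_zero_or_pos (n {3}) with hx3 | hx3
                ·
                  rcases Nat.eq_zero_or_pos (n {0, 2, 3}) with hx023 | hx023
                  ·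
                    rcases Nat.eq_zero_or_pos (n {0, 3}) with hx03 | hx03
                    ·
                      rcases Nat.eq_zero_or_pos (n {0, 1, 3}) with hx013 | hx013
                      ·
                        omega
                      ·
                        rcases Nat.eq_zero_or_pos (n {2, 3}) with hx23 | hx23
                        ·
                          omega
                        ·
                          exact b013_02_23_1 hx013 hx02 hx23 hx1
                    ·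
                      rcases Nat.eq_zero_or_pos (n {2, 3}) with hx23 | hx23
                      ·
                        rcases Nat.eq_zero_or_pos (n {2}) with hx2 | hx2
                        ·
                          rcases Nat.eq_zero_or_pos (n {1, 2, 3}) with hx123 | hx123
                          ·
                            omega
                          ·
                            exact b123_02_03_1 hx123 hx02 hx03 hx1
                        ·
                          exact b03_1_2 hx03 hx1 hx2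
                      ·
                        rcases Nat.eq_zero_or_pos (n {0, 1, 3}) with hx013 | hx013
                        ·
                          exact b02_03_23_1x2 hx02 hx03 hx23 (by omega)
                        ·
                          exact b013_02_23_1 hx013 hx02 hx23 hx1
                  ·
                    exact b023_1 hx023 hx1
                ·
                  exact b02_1_3 hx02 hx1 hx3
            ·
              exact b02_13 hx02 hx13
        ·
          rcases Nat.eq_zero_or_pos (n {2, 3}) with hx23 | hx23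
          ·
            rcases Nat.eq_zero_or_pos (n {2}) with hx2 | hx2
            ·
              rcases Nat.eq_zero_or_pos (n {0, 2, 3}) with hx023 | hx023
              ·
                rcases Nat.eq_zero_or_pos (n {0, 2}) with hx02 | hx02
                ·
                  omega
                ·
                  rcases Nat.eq_zero_or_pos (n {1, 3}) with hx13 | hx13
                  ·
                    rcases Nat.eq_zero_or_pos (n {3}) with hx3 | hx3
                    ·
                      rcases Nat.eq_zero_or_pos (n {0, 3}) with hx03 | hx03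
                      ·
                        omega
                      ·
                        rcases Nat.eq_zero_or_pos (n {1, 2, 3}) with hx123 | hx123
                        ·
                          omega
                        ·
                          exact b123x2_01_02_03 (by omega) hx01 hx02 hx03
                    ·
                      rcases Nat.eq_zero_or_pos (n {1, 2, 3}) with hx123 | hx123
                      ·
                        rcases Nat.eq_zero_or_pos (n {1, 2}) with hx12 | hx12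
                        ·
                          omega
                        ·
                          exact b01_02_12_3x2 hx01 hx02 hx12 (by omega)
                      ·
                        exact b123_01_02_3 hx123 hx01 hx02 hx3
                  ·
                    exact b02_13 hx02 hx13
              ·
                rcases Nat.eq_zero_or_pos (n {1, 2, 3}) with hx123 | hx123
                ·
                  rcases Nat.eq_zero_or_pos (n {1}) with hx1 | hx1
                  ·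
                    rcases Nat.eq_zero_or_pos (n {1, 2}) with hx12 | hx12
                    ·
                      omega
                    ·
                      rcases Nat.eq_zero_or_pos (n {3}) with hx3 | hx3
                      ·
                        rcases Nat.eq_zero_or_pos (n {1, 3}) with hx13 | hx13
                        ·
                          omega
                        ·
                          exact b023x2_01_12_13 (by omega) hx01 hx12 hx13
                      ·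
                        exact b023_01_12_3 hx023 hx01 hx12 hx3
                  ·
                    exact b023_1 hx023 hx1
                ·
                  exact b123_023_01 hx123 hx023 hx01
            ·
              rcases Nat.eq_zero_or_pos (n {3}) with hx3 | hx3
              ·
                rcases Nat.eq_zero_or_pos (n {0, 1, 3}) with hx013 | hx013
                ·
                  rcases Nat.eq_zero_or_pos (n {0, 3}) with hx03 | hx03
                  ·
                    rcases Nat.eq_zero_or_pos (n {0, 2, 3}) with hx023 | hx023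
                    ·
                      omega
                    ·
                      rcases Nat.eq_zero_or_pos (n {1, 3}) with hx13 | hx13
                      ·
                        omega
                      ·
                        exact b023_01_13_2 hx023 hx01 hx13 hx2
                  ·
                    rcases Nat.eq_zero_or_pos (n {1, 3}) with hx13 | hx13
                    ·
                      rcases Nat.eq_zero_or_pos (n {1, 2, 3}) with hx123 | hx123
                      ·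
                        omega
                      ·
                        exact b123_01_03_2 hx123 hx01 hx03 hx2
                    ·
                      rcases Nat.eq_zero_or_pos (n {0, 2, 3}) with hx023 | hx023
                      ·
                        rcases Nat.eq_zero_or_pos (n {0, 2}) with hx02 | hx02
                        ·
                          exact b01_03_13_2x2 hx01 hx03 hx13 (by omega)
                        ·
                          exact b02_13 hx02 hx13
                      ·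
                        exact b023_01_13_2 hx023 hx01 hx13 hx2
                ·
                  exact b013_2 hx013 hx2
              ·
                exact b01_2_3 hx01 hx2 hx3
          ·
            exact b01_23 hx01 hx23
      ·
        rcases Nat.eq_zero_or_pos (n {3}) with hx3 | hx3
        ·
          rcases Nat.eq_zero_or_pos (n {0, 3}) with hx03 | hx03
          ·
            rcases Nat.eq_zero_or_pos (n {0, 1, 3}) with hx013 | hx013
            ·
              rcases Nat.eq_zero_or_pos (n {0, 2, 3}) with hx023 | hx023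
              ·
                omega
              ·
                rcases Nat.eq_zero_or_pos (n {1, 3}) with hx13 | hx13
                ·
                  omega
                ·
                  exact b023_012_13 hx023 hx012 hx13
            ·
              rcases Nat.eq_zero_or_pos (n {2, 3}) with hx23 | hx23
              ·
                rcases Nat.eq_zero_or_pos (n {2}) with hx2 | hx2
                ·
                  rcases Nat.eq_zero_or_pos (n {0, 2, 3}) with hx023 | hx023
                  ·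
                    omega
                  ·
                    rcases Nat.eq_zero_or_pos (n {1, 2, 3}) with hx123 | hx123
                    ·
                      rcases Nat.eq_zero_or_pos (n {1, 3}) with hx13 | hx13
                      ·
                        omega
                      ·
                        exact b023_012_13 hx023 hx012 hx13
                    ·
                      exact b123_023_013_012 hx123 hx023 hx013 hx012
                ·
                  exact b013_2 hx013 hx2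
              ·
                exact b013_012_23 hx013 hx012 hx23
          ·
            rcases Nat.eq_zero_or_pos (n {1, 2, 3}) with hx123 | hx123
            ·
              rcases Nat.eq_zero_or_pos (n {1, 2}) with hx12 | hx12
              ·
                rcases Nat.eq_zero_or_pos (n {1, 3}) with hx13 | hx13
                ·
                  rcases Nat.eq_zero_or_pos (n {1}) with hx1 | hx1
                  ·
                    omega
                  ·
                    rcases Nat.eq_zero_or_pos (n {2, 3}) with hx23 | hx23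
                    ·
                      omega
                    ·
                      exact b012_03_23_1 hx012 hx03 hx23 hx1
                ·
                  rcases Nat.eq_zero_or_pos (n {2, 3}) with hx23 | hx23
                  ·
                    rcases Nat.eq_zero_or_pos (n {2}) with hx2 | hx2
                    ·
                      omega
                    ·
                      exact b012_03_13_2 hx012 hx03 hx13 hx2
                  ·
                    rcases Nat.eq_zero_or_pos (n {1}) with hx1 | hx1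
                    ·
                      rcases Nat.eq_zero_or_pos (n {2}) with hx2 | hx2
                      ·
                        exact b012x2_03_13_23 (by omega) hx03 hx13 hx23
                      ·
                        exact b012_03_13_2 hx012 hx03 hx13 hx2
                    ·
                      exact b012_03_23_1 hx012 hx03 hx23 hx1
              ·
                exact b03_12 hx03 hx12
            ·
              exact b123_012_03 hx123 hx012 hx03
        ·
          exact b012_3 hx012 hx3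
    ·
      rcases Nat.eq_zero_or_pos (n {1, 2, 3}) with hx123 | hx123
      ·
        rcases Nat.eq_zero_or_pos (n {1, 2}) with hx12 | hx12
        ·
          rcases Nat.eq_zero_or_pos (n {1}) with hx1 | hx1
          ·
            rcases Nat.eq_zero_or_pos (n {1, 3}) with hx13 | hx13
            ·
              omega
            ·
              rcases Nat.eq_zero_or_pos (n {2}) with hx2 | hx2
              ·
                rcases Nat.eq_zero_or_pos (n {0, 2}) with hx02 | hx02
                ·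
                  rcases Nat.eq_zero_or_pos (n {0, 1, 2}) with hx012 | hx012
                  ·
                    omega
                  ·
                    rcases Nat.eq_zero_or_pos (n {2, 3}) with hx23 | hx23
                    ·
                      omega
                    ·
                      exact b012_13_23_0 hx012 hx13 hx23 hx0
                ·
                  exact b02_13 hx02 hx13
              ·
                exact b0_13_2 hx0 hx13 hx2
          ·
            rcases Nat.eq_zero_or_pos (n {2, 3}) with hx23 | hx23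
            ·
              rcases Nat.eq_zero_or_pos (n {0, 2, 3}) with hx023 | hx023
              ·
                rcases Nat.eq_zero_or_pos (n {2}) with hx2 | hx2
                ·
                  omega
                ·
                  rcases Nat.eq_zero_or_pos (n {3}) with hx3 | hx3
                  ·
                    rcases Nat.eq_zero_or_pos (n {1, 3}) with hx13 | hx13
                    ·
                      omega
                    ·
                      exact b0_13_2 hx0 hx13 hx2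
                  ·
                    exact b0_1_2_3 hx0 hx1 hx2 hx3
              ·
                exact b023_1 hx023 hx1
            ·
              exact b0_1_23 hx0 hx1 hx23
        ·
          rcases Nat.eq_zero_or_pos (n {3}) with hx3 | hx3
          ·
            rcases Nat.eq_zero_or_pos (n {0, 3}) with hx03 | hx03
            ·
              rcases Nat.eq_zero_or_pos (n {1, 3}) with hx13 | hx13
              ·
                rcases Nat.eq_zero_or_pos (n {2, 3}) with hx23 | hx23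
                ·
                  omega
                ·
                  rcases Nat.eq_zero_or_pos (n {0, 1, 3}) with hx013 | hx013
                  ·
                    omega
                  ·
                    exact b013_12_23_0 hx013 hx12 hx23 hx0
              ·
                rcases Nat.eq_zero_or_pos (n {2, 3}) with hx23 | hx23
                ·
                  rcases Nat.eq_zero_or_pos (n {0, 2, 3}) with hx023 | hx023
                  ·
                    omega
                  ·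
                    exact b023_12_13_0 hx023 hx12 hx13 hx0
                ·
                  rcases Nat.eq_zero_or_pos (n {0, 1, 3}) with hx013 | hx013
                  ·
                    rcases Nat.eq_zero_or_pos (n {0, 2, 3}) with hx023 | hx023
                    ·
                      exact b12_13_23_0x2 hx12 hx13 hx23 (by omega)
                    ·
                      exact b023_12_13_0 hx023 hx12 hx13 hx0
                  ·
                    exact b013_12_23_0 hx013 hx12 hx23 hx0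
            ·
              exact b03_12 hx03 hx12
          ·
            exact b0_12_3 hx0 hx12 hx3
      ·
        exact b0_123 hx0 hx123
  ·
    exact b0123 hx0123

end Pool.Agent.H8.Few
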