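import Pool.Agent.H8.Few.Blocks
import Pool.Graph.R_pool_sql_team_3845a38e.H1.EulerOrient

/-!
# Families of sets of even size in which each element is in at most two sets
-/

set_option autoImplicit false

namespace Pool.Agent.H8.Few

open Finset

theorem block2 {I : Type} [Finite I] (m : ℕ) (hm : 0 < m) (A : I → Finset ℕ)
    (hA : ∀ i, (A i).card = 2 * m)
    (hmul : ∀ x i j l, x ∈ A i → x ∈ A j → x ∈ A l → i = j ∨ i = l ∨ j = l) :
    ∃ P : Finset ℕ, ∀ i, (A i ∩ P).card = 2 := by
  classical
  have := Fintype.ofFinite I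
  set E : Finset ℕ := univ.biUnion A with hE
  have hsub : ∀ i, A i ⊆ E := fun i x hx => mem_biUnion.2 ⟨i, mem_univ _, hx⟩
  -- the ends of the colours
  have hends : ∀ x, ∃ (i j : Option I), x ∈ E → i ≠ j ∧ ∀ l, x ∈ A l ↔ i = some l ∨ j = some l := by
    intro x
    by_cases hx : x ∈ E
    · obtain ⟨i, -, hi⟩ := mem_biUnion.1 hx
      by_cases h : ∃ j, j ≠ i ∧ x ∈ A j
      · obtain ⟨j, hj, hj'⟩ := h
        refine ⟨some i, some j, fun _ => ⟨fun h => hj (Option.some.inj h).symm, ?_⟩⟩
        intro l
        constructor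
        · intro hl
          rcases hmul x i j l hi hj' hl with h | h | h
          · exact absurd h.symm hj
          · exact Or.inl (congrArg some h)
          · exact Or.inr (congrArg some h)
        · rintro (h | h)
          · rw [← Option.some.inj h]
            exact hi
          · rw [← Option.some.inj h]
            exact hj'
      · push Not at h
        refine ⟨some i, none, fun _ => ⟨by simp, ?_⟩⟩
        intro l
        constructor
        · intro hl
          by_contra hne
          push Not at hne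
          exact h l (fun h' => hne.1 (congrArg some h'.symm)) hl
        · rintro (h' | h')
          · rw [← Option.some.inj h']
            exact hi
          · exact absurd h' (by simp)
    · exact ⟨none, none, fun h => absurd h hx⟩
  choose p q hpq using hends
  let b : ℕ → Option I → ℤ := fun x => Pi.single (p x) 1 - Pi.single (q x) 1
  have hb : ∀ x v, b x v = (if p x = v then 1 else 0) - (if q x = v then 1 else 0) := by
    intro x v
    simp only [b, Pi.sub_apply, Pi.single_apply]
    congr 1
    · by_cases h : p x = v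
      · rw [if_pos h, if_pos h.symm]
      · rw [if_neg h, if_neg (fun h' => h h'.symm)]
    · by_cases h : q x = v
      · rw [if_pos h, if_pos h.symm]
      · rw [if_neg h, if_neg (fun h' => h h'.symm)]
  -- counting
  have hcount : ∀ l, (E.filter fun x => p x = some l).card + (E.filter fun x => q x = some l).card =
      2 * m := by
    intro l
    rw [← hA l, ← card_union_of_disjoint]
    · congr 1
      ext x
      simp only [mem_union, mem_filter]
      constructor
      · rintro (⟨h1, h2⟩ | ⟨h1, h2⟩)
        · exact ((hpq x h1).2 l).2 (Or.inl h2)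
        · exact ((hpq x h1).2 l).2 (Or.inr h2)
      · intro h
        have h1 := hsub l h
        rcases ((hpq x h1).2 l).1 h with h2 | h2
        · exact Or.inl ⟨h1, h2⟩
        · exact Or.inr ⟨h1, h2⟩
    · rw [disjoint_left]
      intro x h1 h2
      rw [mem_filter] at h1 h2
      exact (hpq x h1.1).1 (h1.2.trans h2.2.symm)
  have hsum : ∀ v, ∑ x ∈ E, b x v = ((E.filter fun x => p x = v).card : ℤ) -
      ((E.filter fun x => q x = v).card : ℤ) := by
    intro v
    simp only [hb, sum_sub_distrib]
    rw [← Finset.natCast_card_filter, ← Finset.natCast_card_filter]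
  have hpar1 : ∀ l, (2 : ℤ) ∣ ∑ x ∈ E, b x (some l) := by
    intro l
    rw [hsum]
    have := hcount l
    omega
  have hpar : ∀ v, (2 : ℤ) ∣ ∑ x ∈ E, b x v := by
    intro v
    rcases v with _ | l
    · have h1 : ∑ v : Option I, ∑ x ∈ E, b x v = 0 := by
        rw [sum_comm]
        apply sum_eq_zero
        intro x _
        simp only [hb, sum_sub_distrib, sum_ite_eq, mem_univ, if_true, sub_self]
      rw [Fintype.sum_option] at h1
      have h2 : ∑ x ∈ E, b x none = - ∑ l : I, ∑ x ∈ E, b x (some l) := by linarith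
      rw [h2]
      exact (dvd_neg).2 (dvd_sum fun l _ => hpar1 l)
    · exact hpar1 l
  obtain ⟨P, -, hP⟩ := Pool.Agent.H1.EulerOrient.euler E.card b E rfl
    (fun x _ => ⟨p x, q x, rfl⟩) hpar
  -- tails and heads
  let tl : ℕ → Option I := fun x => if x ∈ P then p x else q x
  let hd : ℕ → Option I := fun x => if x ∈ P then q x else p x
  have hth : ∀ x, x ∈ E → tl x ≠ hd x ∧ ∀ l, x ∈ A l ↔ tl x = some l ∨ hd x = some l := by
    intro x hx
    obtain ⟨h1, h2⟩ := hpq x hx
    by_cases h : x ∈ P
    · simp only [tl, hd, h, if_true]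
      exact ⟨h1, h2⟩
    · simp only [tl, hd, h, if_false]
      exact ⟨h1.symm, fun l => (h2 l).trans or_comm⟩
  have hbal : ∀ v, (E.filter fun x => tl x = v).card = (E.filter fun x => hd x = v).card := by
    intro v
    have h1 := congrFun hP v
    unfold Pool.Agent.H1.EulerOrient.sg at h1
    rw [Finset.sum_apply] at h1
    have h2 : ∑ x ∈ E, (if x ∈ P then b x else - b x) v =
        ∑ x ∈ E, ((if tl x = v then (1 : ℤ) else 0) - (if hd x = v then 1 else 0)) := by
      apply sum_congr rfl
      intro x _
      by_cases h : x ∈ P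
      · simp only [tl, hd, h, if_true, hb]
      · simp only [tl, hd, h, if_false, Pi.neg_apply, hb]
        ring
    rw [h2, sum_sub_distrib, ← Finset.natCast_card_filter, ← Finset.natCast_card_filter] at h1
    have h3 : ((E.filter fun x => tl x = v).card : ℤ) = ((E.filter fun x => hd x = v).card : ℤ) := by
      have : (0 : Option I → ℤ) v = 0 := rfl
      linarith
    exact_mod_cast h3
  have hcnt2 : ∀ l, (E.filter fun x => tl x = some l).card = m ∧
      (E.filter fun x => hd x = some l).card = m := by
    intro l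
    have h0 : (E.filter fun x => tl x = some l).card + (E.filter fun x => hd x = some l).card =
        2 * m := by
      rw [← hA l, ← card_union_of_disjoint]
      · congr 1
        ext x
        simp only [mem_union, mem_filter]
        constructor
        · rintro (⟨h1, h2⟩ | ⟨h1, h2⟩)
          · exact ((hth x h1).2 l).2 (Or.inl h2)
          · exact ((hth x h1).2 l).2 (Or.inr h2)
        · intro h
          have h1 := hsub l h
          rcases ((hth x h1).2 l).1 h with h2 | h2
          · exact Or.inl ⟨h1, h2⟩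
          · exact Or.inr ⟨h1, h2⟩
      · rw [disjoint_left]
        intro x h1 h2
        rw [mem_filter] at h1 h2
        exact (hth x h1.1).1 (h1.2.trans h2.2.symm)
    have := hbal (some l)
    omega
  -- König
  let av : (ℕ → Option I) → {x // x ∈ E} → I ⊕ ℕ := fun f x =>
    match f x.1 with
    | some l => Sum.inl l
    | none => Sum.inr x.1
  have hav1 : ∀ (f : ℕ → Option I) (x : {x // x ∈ E}) l, av f x = Sum.inl l ↔ f x.1 = some l := by
    intro f x l
    simp only [av]
    cases h : f x.1 <;> simp
  have hav2 : ∀ (f : ℕ → Option I) (x : {x // x ∈ E}) n, av f x = Sum.inr n → x.1 = n := by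
    intro f x n
    simp only [av]
    cases h : f x.1 <;> simp
  have hcard : ∀ (f : ℕ → Option I) l,
      ((univ : Finset {x // x ∈ E}).filter fun x => f x.1 = some l).card =
      (E.filter fun x => f x = some l).card := by
    intro f l
    rw [← card_map (Function.Embedding.subtype _)]
    congr 1
    ext x
    simp only [mem_map, mem_filter, mem_univ, true_and, Function.Embedding.coe_subtype]
    constructor
    · rintro ⟨y, hy, rfl⟩
      exact ⟨y.2, hy⟩
    · rintro ⟨h1, h2⟩
      exact ⟨⟨x, h1⟩, h2, rfl⟩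
  have hfib : ∀ (f : ℕ → Option I), (∀ l, (E.filter fun x => f x = some l).card = m) →
      ∀ z, ((univ : Finset {x // x ∈ E}).filter fun x => av f x = z).card ≤ m := by
    intro f hf z
    rcases z with l | n
    · simp only [hav1]
      rw [hcard f l, hf l]
    · refine le_trans ?_ (show 1 ≤ m from hm)
      rw [card_le_one]
      intro x hx y hy
      rw [mem_filter] at hx hy
      exact Subtype.ext ((hav2 f x n hx.2).trans (hav2 f y n hy.2).symm)
  obtain ⟨c, hc1, hc2⟩ := Pool.Agent.N645.TBKON.kon (av tl) (av hd) m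
    (hfib tl fun l => (hcnt2 l).1) (hfib hd fun l => (hcnt2 l).2)
  -- the first class
  let z0 : Fin m := ⟨0, hm⟩
  have hone : ∀ (f : ℕ → Option I), (∀ l, (E.filter fun x => f x = some l).card = m) →
      (∀ u v, u ≠ v → av f u = av f v → c u ≠ c v) → ∀ l, ∃ x : {x // x ∈ E}, f x.1 = some l ∧
        c x = z0 ∧ ∀ y : {x // x ∈ E}, f y.1 = some l → c y = z0 → y = x := by
    intro f hf hc l
    have h1 : Set.InjOn c ((univ : Finset {x // x ∈ E}).filter fun x => f x.1 = some l) := by
      intro x hx y hy hxy
      rw [mem_coe, mem_filter] at hx hy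
      by_contra hne
      exact hc x y hne (((hav1 f x l).2 hx.2).trans ((hav1 f y l).2 hy.2).symm) hxy
    have h2 : (((univ : Finset {x // x ∈ E}).filter fun x => f x.1 = some l).image c) = univ := by
      rw [← card_eq_iff_eq_univ, card_image_of_injOn h1, hcard f l, hf l, Fintype.card_fin]
    have h3 : z0 ∈ (((univ : Finset {x // x ∈ E}).filter fun x => f x.1 = some l).image c) := by
      rw [h2]
      exact mem_univ _
    obtain ⟨x, hx, hx'⟩ := mem_image.1 h3
    rw [mem_filter] at hx
    refine ⟨x, hx.2, hx', fun y hy hy' => ?_⟩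
    exact h1 (by rw [mem_coe, mem_filter]; exact ⟨mem_univ _, hy⟩)
      (by rw [mem_coe, mem_filter]; exact ⟨mem_univ _, hx.2⟩) (hy'.trans hx'.symm)
  refine ⟨((univ : Finset {x // x ∈ E}).filter fun x => c x = z0).map
    (Function.Embedding.subtype _), fun l => ?_⟩
  obtain ⟨x, x1, x2, x3⟩ := hone tl (fun l => (hcnt2 l).1) hc1 l
  obtain ⟨y, y1, y2, y3⟩ := hone hd (fun l => (hcnt2 l).2) hc2 l
  rw [card_eq_two]
  refine ⟨x.1, y.1, ?_, ?_⟩
  · intro h
    have h1 := (hth y.1 y.2).1
    rw [← h, x1, h, y1] at h1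
    exact h1 rfl
  · ext w
    simp only [mem_inter, mem_map, mem_filter, mem_univ, true_and, Function.Embedding.coe_subtype,
      mem_insert, mem_singleton]
    constructor
    · rintro ⟨h1, v, hv, rfl⟩
      rcases ((hth v.1 v.2).2 l).1 h1 with h | h
      · exact Or.inl (congrArg Subtype.val (x3 v h hv))
      · exact Or.inr (congrArg Subtype.val (y3 v h hv))
    · rintro (rfl | rfl)
      · exact ⟨((hth x.1 x.2).2 l).2 (Or.inl x1), x, x2, rfl⟩
      · exact ⟨((hth y.1 y.2).2 l).2 (Or.inr y1), y, y2, rfl⟩

/-- **Lists in which each colour is in at most two of the sets.** -/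
theorem atMostTwo {V I : Type} [Finite V] {H : SimpleGraph V} (hH : CF H) (k : ℕ) (hk2 : Even k)
    (W : Set V) (hk : KCol H W k) (A : I → Finset ℕ) (hA : ∀ i, k ≤ (A i).card)
    (hmul : ∀ x i j l, x ∈ A i → x ∈ A j → x ∈ A l → i = j ∨ i = l ∨ j = l) (L : V → Finset ℕ)
    (hL : ∀ v ∈ W, ∃ i, A i ⊆ L v) : Col H W L := by
  classical
  by_cases hW : W = ∅
  · subst hW
    exact ⟨fun _ => 0, fun v hv => absurd hv (Set.notMem_empty v), fun v hv => absurd hv
      (Set.notMem_empty v)⟩
  obtain ⟨v0, hv0⟩ := Set.nonempty_iff_ne_empty.2 hW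
  obtain ⟨i0, -⟩ := hL v0 hv0
  obtain ⟨B, hB⟩ := shrink k A hA
  have : ∀ v, ∃ i, v ∈ W → A i ⊆ L v := by
    intro v
    by_cases hv : v ∈ W
    · obtain ⟨i, hi⟩ := hL v hv
      exact ⟨i, fun _ => hi⟩
    · exact ⟨i0, fun h => absurd h hv⟩
  choose t ht using this
  -- finitely many sets
  let J : Type := Set.range t
  have hJ : Finite J := Set.finite_range t
  let t' : V → J := fun v => ⟨t v, v, rfl⟩
  have h := assemble H t' (fun d => d = 2) (fun d hd W' hW' B' hB' =>
    good12 hH t' d (Or.inr hd) W' hW' B' hB') (fun k A => (∀ i, (A i).card = k) ∧ Even k ∧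
      ∀ x (i j l : J), x ∈ A i → x ∈ A j → x ∈ A l → i = j ∨ i = l ∨ j = l) (by
      rintro k A ⟨hA, hk, hm⟩ hk0
      obtain ⟨m, hm'⟩ := hk
      obtain ⟨P, hP⟩ := block2 m (by omega) A (fun i => by rw [hA i]; omega) hm
      refine ⟨2, P, by norm_num, by omega, rfl, hP, ?_, ⟨m - 1, by omega⟩, ?_⟩
      · intro i
        have h5 := card_sdiff_add_card_inter (A i) P
        rw [hA i, hP i] at h5
        show (A i \ P).card = k - 2
        omega
      · intro x i j l h1 h2 h3
        exact hm x i j l (mem_sdiff.1 h1).1 (mem_sdiff.1 h2).1 (mem_sdiff.1 h3).1) k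
      (fun i => B i.1) ⟨fun i => (hB i.1).2, hk2, by
        intro x i j l h1 h2 h3
        rcases hmul x i.1 j.1 l.1 ((hB i.1).1 h1) ((hB j.1).1 h2) ((hB l.1).1 h3) with h | h | h
        · exact Or.inl (Subtype.ext h)
        · exact Or.inr (Or.inl (Subtype.ext h))
        · exact Or.inr (Or.inr (Subtype.ext h))⟩ W hk
  exact h.mono (fun v hv => ((hB (t v)).1).trans (ht v hv))

/-- **The same for odd `k`**, if there is a set of representatives. -/
theorem atMostTwo' {V I : Type} [Finite V] {H : SimpleGraph V} (hH : CF H) (k : ℕ)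
    (W : Set V) (hk : KCol H W k) (A : I → Finset ℕ) (hA : ∀ i, k ≤ (A i).card)
    (hmul : ∀ x i j l, x ∈ A i → x ∈ A j → x ∈ A l → i = j ∨ i = l ∨ j = l)
    (hP : Even k ∨ ∃ P : Set ℕ, ∀ i, ∃! x, x ∈ A i ∧ x ∈ P) (L : V → Finset ℕ)
    (hL : ∀ v ∈ W, ∃ i, A i ⊆ L v) : Col H W L := by
  classical
  by_cases hk2 : Even k
  · exact atMostTwo hH k hk2 W hk A hA hmul L hL
  obtain ⟨P, hP⟩ := hP.resolve_left hk2
  have hpos : 0 < k := by
    rcases Nat.eq_zero_or_pos k with h | h
    · subst h
      exact absurd (Even.zero) hk2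
    · exact h
  choose p hp hpu using hP
  simp only at hp hpu
  obtain ⟨c, c1, c2⟩ := hk
  -- the other colours
  let B : I → Finset ℕ := fun i => (A i).erase (p i)
  have hBP : ∀ i x, x ∈ B i → x ∉ P := by
    intro i x hx hxP
    rw [mem_erase] at hx
    exact hx.1 (hpu i x ⟨hx.2, hxP⟩)
  obtain ⟨f, f1, f2⟩ := atMostTwo hH (k - 1) (by
      rw [Nat.even_sub hpos]
      simp [hk2]) {v | v ∈ W ∧ c v ≠ 0}
    ⟨fun v => c v - 1, fun v hv => by
      have a1 := c1 v hv.1
      have a2 := hv.2
      show c v - 1 < k - 1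
      omega, fun u hu v hv huv h => by
      have a1 := hu.2
      have a2 := hv.2
      have a3 := c2 u hu.1 v hv.1 huv
      have a4 : c u - 1 = c v - 1 := h
      omega⟩ B (fun i => by
        rw [card_erase_of_mem (hp i).1]
        have := hA i
        omega) (fun x i j l h1 h2 h3 => hmul x i j l (mem_of_mem_erase h1) (mem_of_mem_erase h2)
          (mem_of_mem_erase h3)) (fun v => (L v).filter fun x => x ∉ P) (by
      intro v hv
      obtain ⟨i, hi⟩ := hL v hv.1
      refine ⟨i, fun x hx => mem_filter.2 ⟨hi (mem_of_mem_erase hx), hBP i x hx⟩⟩)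
  have : ∀ v, ∃ x, v ∈ W → x ∈ L v ∧ x ∈ P := by
    intro v
    by_cases hv : v ∈ W
    · obtain ⟨i, hi⟩ := hL v hv
      exact ⟨p i, fun _ => ⟨hi (hp i).1, (hp i).2⟩⟩
    · exact ⟨0, fun h => absurd h hv⟩
  choose g hg using this
  refine ⟨fun v => if c v = 0 then g v else f v, ?_, ?_⟩
  · intro v hv
    by_cases h : c v = 0
    · simp only [h, if_true]
      exact (hg v hv).1
    · simp only [h, if_false]
      exact (mem_filter.1 (f1 v ⟨hv, h⟩)).1
  · intro u hu v hv huv
    by_cases h : c u = 0
    · by_cases h' : c v = 0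
      · exact absurd (h.trans h'.symm) (c2 u hu v hv huv)
      · simp only [h, h', if_true, if_false]
        intro he
        exact (mem_filter.1 (f1 v ⟨hv, h'⟩)).2 (he ▸ (hg u hu).2)
    · by_cases h' : c v = 0
      · simp only [h, h', if_true, if_false]
        intro he
        exact (mem_filter.1 (f1 u ⟨hu, h⟩)).2 (he ▸ (hg v hv).2)
      · simp only [h, h', if_false]
        exact f2 u ⟨hu, h⟩ v ⟨hv, h'⟩ huv

end Pool.Agent.H8.Few
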