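import Pool.Agent.H8.Few.Four
import Pool.Agent.H8.Few.Petersen

/-!
# Few different lists: edge colourings, reduction to small numbers of colours
-/

set_option autoImplicit false

namespace Pool.Agent.H8.Few

open Finset

/-- Colouring block by block, for the classes of a fixed colouring. -/
theorem assembleD {V I : Type} (H : SimpleGraph V) (t : V → I) (c : V → ℕ) (Good : ℕ → Prop)
    (hG : ∀ D : Finset ℕ, Good D.card → ∀ A : I → Finset ℕ, (∀ i, (A i).card = D.card) →
      Col H {v | c v ∈ D} (fun v => A (t v)))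
    (hex : ∀ k (A : I → Finset ℕ), (∀ i, (A i).card = k) → k ≠ 0 → ∃ (d : ℕ) (P : Finset ℕ), 0 < d ∧
      d ≤ k ∧ Good d ∧ ∀ i, (A i ∩ P).card = d) :
    ∀ (k : ℕ) (A : I → Finset ℕ), (∀ i, (A i).card = k) → ∀ D : Finset ℕ, D.card = k →
      Col H {v | c v ∈ D} (fun v => A (t v)) := by
  intro k
  induction k using Nat.strong_induction_on with
  | _ k ih =>
    intro A hA D hD
    by_cases hk : k = 0
    · subst hk
      rw [card_eq_zero] at hD
      subst hD
      exact ⟨fun _ => 0, fun v hv => absurd hv (Finset.notMem_empty _),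
        fun v hv => absurd hv (Finset.notMem_empty _)⟩
    obtain ⟨d, P, hd0, hdk, hGd, hP⟩ := hex k A hA hk
    obtain ⟨D', hD', hD'c⟩ := exists_subset_card_eq (show d ≤ D.card by omega)
    obtain ⟨f, f1, f2⟩ := hG D' (by rw [hD'c]; exact hGd) (fun i => A i ∩ P)
      (fun i => by rw [hD'c]; exact hP i)
    obtain ⟨g, g1, g2⟩ := ih (k - d) (by omega) (fun i => A i \ P) (fun i => by
      have h5 := card_sdiff_add_card_inter (A i) P
      rw [hA i, hP i] at h5
      show (A i \ P).card = k - d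
      omega) (D \ D') (by
        rw [card_sdiff_of_subset hD', hD, hD'c])
    have hsplit : ∀ v, c v ∈ D → c v ∉ D' → c v ∈ D \ D' := fun v h h' => mem_sdiff.2 ⟨h, h'⟩
    refine ⟨fun v => if c v ∈ D' then f v else g v, ?_, ?_⟩
    · intro v hv
      by_cases h : c v ∈ D'
      · simp only [h, if_true]
        exact (mem_inter.1 (f1 v h)).1
      · simp only [h, if_false]
        exact (mem_sdiff.1 (g1 v (hsplit v hv h))).1
    · intro u hu v hv huv
      by_cases h : c u ∈ D'
      · by_cases h' : c v ∈ D'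
        · simp only [h, h', if_true]
          exact f2 u h v h' huv
        · simp only [h, h', if_true, if_false]
          intro he
          have a1 := (mem_inter.1 (f1 u h)).2
          have a2 := (mem_sdiff.1 (g1 v (hsplit v hv h'))).2
          exact a2 (he ▸ a1)
      · by_cases h' : c v ∈ D'
        · simp only [h, h', if_true, if_false]
          intro he
          have a1 := (mem_inter.1 (f1 v h')).2
          have a2 := (mem_sdiff.1 (g1 u (hsplit u hu h))).2
          exact a2 (he ▸ a1)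
        · simp only [h, h', if_false]
          exact g2 u (hsplit u hu h) v (hsplit v hv h') huv

/-- Families of `s` sets of the same size have a block of depth at most `K`. -/
def Dep (s K : ℕ) : Prop :=
  ∀ (k : ℕ) (A : Fin s → Finset ℕ), (∀ i, (A i).card = k) → k ≠ 0 →
    ∃ (d : ℕ) (P : Finset ℕ), 0 < d ∧ d ≤ k ∧ d ≤ K ∧ ∀ i, (A i ∩ P).card = d

theorem dep_three : Dep 3 2 := by
  intro k A hA hk
  obtain ⟨d, P, hd, hP⟩ := block3 k hk A hA
  refine ⟨d, P, by omega, ?_, by omega, hP⟩
  rw [← hP 0, ← hA 0]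
  exact card_le_card inter_subset_left

theorem dep_four : Dep 4 3 := by
  intro k A hA hk
  obtain ⟨d, m, hd, hd3, -, hm, hle⟩ := four k (cnt A) (Nat.pos_of_ne_zero hk)
    (fun i => by rw [← card_eq_sum_cnt]; exact hA i)
  obtain ⟨P, hP⟩ := extract A m (fun T _ => hle T) d hm
  refine ⟨d, P, hd, ?_, hd3, hP⟩
  rw [← hP 0, ← hA 0]
  exact card_le_card inter_subset_left

/-- **Four sets such that no colour is in exactly three of them.** -/
theorem fourSets {V : Type} [Finite V] {H : SimpleGraph V} (hH : CF H) (k : ℕ) (W : Set V)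
    (hk : KCol H W k) (A : Fin 4 → Finset ℕ) (hA : ∀ i, (A i).card = k)
    (hno : ∀ x, (univ.filter fun i => x ∈ A i).card ≠ 3) (L : V → Finset ℕ)
    (hL : ∀ v ∈ W, ∃ i, A i ⊆ L v) : Col H W L := by
  classical
  have : ∀ v, ∃ i, v ∈ W → A i ⊆ L v := by
    intro v
    by_cases hv : v ∈ W
    · obtain ⟨i, hi⟩ := hL v hv
      exact ⟨i, fun _ => hi⟩
    · exact ⟨0, fun h => absurd h hv⟩
  choose t ht using this
  have h := assemble H t (fun d => d = 1 ∨ d = 2) (fun d hd W' hW' B' hB' =>
    good12 hH t d hd W' hW' B' hB') (fun k A => (∀ i, (A i).card = k) ∧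
      ∀ x, (univ.filter fun i => x ∈ A i).card ≠ 3) (by
      rintro k A ⟨hA, hno⟩ hk
      obtain ⟨d, m, hd, hd3, h3, hm, hle⟩ := four k (cnt A) (Nat.pos_of_ne_zero hk)
        (fun i => by rw [← card_eq_sum_cnt]; exact hA i)
      have hd2 : d ≤ 2 := by
        rcases h3 with h3 | ⟨T, hT, hT'⟩
        · exact h3
        · exfalso
          have h4 : 0 < cnt A T := lt_of_lt_of_le hT' (hle T)
          obtain ⟨x, hx⟩ := card_pos.1 h4
          rw [mem_filter] at hx
          have h5 : (univ.filter fun i => x ∈ A i) = T := hx.2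
          exact hno x (by rw [h5, hT])
      obtain ⟨P, hP⟩ := extract A m (fun T _ => hle T) d hm
      have hdk : d ≤ k := by
        rw [← hP 0, ← hA 0]
        exact card_le_card inter_subset_left
      refine ⟨d, P, hd, hdk, by omega, hP, ?_, ?_⟩
      · intro i
        have h5 := card_sdiff_add_card_inter (A i) P
        rw [hA i, hP i] at h5
        show (A i \ P).card = k - d
        omega
      · intro x
        by_cases hx : x ∈ P
        · have : (univ.filter fun i => x ∈ A i \ P) = ∅ := by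
            apply filter_eq_empty_iff.2
            intro i _ h
            exact (mem_sdiff.1 h).2 hx
          rw [this, card_empty]
          norm_num
        · have : (univ.filter fun i => x ∈ A i \ P) = (univ.filter fun i => x ∈ A i) := by
            apply filter_congr
            intro i _
            rw [mem_sdiff]
            exact ⟨fun h => h.1, fun h => ⟨h, hx⟩⟩
          rw [this]
          exact hno x) k A ⟨hA, hno⟩ W hk
  exact h.mono (fun v hv => ht v hv)

theorem dep_exists (s : ℕ) : ∃ K, Dep s K := by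
  obtain ⟨K, hK⟩ := dickson s
  refine ⟨K + 1, ?_⟩
  intro k A hA hk
  rcases Nat.eq_zero_or_pos s with hs | hs
  · subst hs
    exact ⟨1, ∅, by norm_num, by omega, by omega, fun i => i.elim0⟩
  · let i0 : Fin s := ⟨0, hs⟩
    obtain ⟨d, m, hd0, hdK, hm, hle⟩ := hK k (cnt A) (Nat.pos_of_ne_zero hk)
      (fun i => by rw [← card_eq_sum_cnt]; exact hA i)
    obtain ⟨P, hP⟩ := extract A m (fun T _ => hle T) d hm
    refine ⟨d, P, hd0, ?_, by omega, hP⟩
    rw [← hP i0, ← hA i0]
    exact card_le_card inter_subset_left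

/-- the bounds -/
theorem exists_bounds : ∃ K : ℕ → ℕ, K 3 = 2 ∧ K 4 = 3 ∧ ∀ s, Dep s (K s) := by
  choose K hK using dep_exists
  refine ⟨fun s => if s = 3 then 2 else if s = 4 then 3 else K s, by simp, by simp, ?_⟩
  intro s
  by_cases h3 : s = 3
  · subst h3
    simpa using dep_three
  · by_cases h4 : s = 4
    · subst h4
      simpa using dep_four
    · simp only [h3, h4, if_false]
      exact hK s

/-- The reduction for the classes of a fixed colouring. -/
theorem reduceD {s K : ℕ} (hK : Dep s K) {V : Type} (H : SimpleGraph V) (t : V → Fin s) (c : V → ℕ)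
    (hG : ∀ D : Finset ℕ, D.card ≤ K → ∀ A : Fin s → Finset ℕ, (∀ i, (A i).card = D.card) →
      Col H {v | c v ∈ D} (fun v => A (t v))) (D : Finset ℕ) (A : Fin s → Finset ℕ)
    (hA : ∀ i, (A i).card = D.card) : Col H {v | c v ∈ D} (fun v => A (t v)) := by
  refine assembleD H t c (fun d => d ≤ K) (fun D hD A hA => hG D hD A hA) ?_ D.card A hA D rfl
  intro k A hA hk
  obtain ⟨d, P, h1, h2, h3, h4⟩ := hK k A hA hk
  exact ⟨d, P, h1, h2, h3, h4⟩

section edges

variable {V : Type} (G : SimpleGraph V)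

theorem lineGraph_cf : CF G.lineGraph := by
  intro e a b c ha hb hc hab hac hbc
  rw [SimpleGraph.lineGraph_adj_iff_exists] at ha hb hc
  obtain ⟨-, x, x1, x2⟩ := ha
  obtain ⟨-, y, y1, y2⟩ := hb
  obtain ⟨-, z, z1, z2⟩ := hc
  simp only [SimpleGraph.lineGraph_adj_iff_exists]
  by_cases h1 : x = y
  · subst h1
    exact Or.inl ⟨hab, x, x2, y2⟩
  by_cases h2 : x = z
  · subst h2
    exact Or.inr (Or.inl ⟨hac, x, x2, z2⟩)
  have h3 : y = z := by
    have h4 : (e : Sym2 V) = s(x, y) := ((Sym2.mem_and_mem_iff h1).1 ⟨x1, y1⟩)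
    rw [h4, Sym2.mem_iff] at z1
    rcases z1 with h | h
    · exact absurd h.symm h2
    · exact h.symm
  subst h3
  exact Or.inr (Or.inr ⟨hbc, y, y2, z2⟩)

/-- The subgraph with the edges in `W`. -/
def sub (W : Set G.edgeSet) : SimpleGraph V := SimpleGraph.fromEdgeSet (Subtype.val '' W)

theorem mem_sub (W : Set G.edgeSet) (e : Sym2 V) :
    e ∈ (sub G W).edgeSet ↔ ∃ h : e ∈ G.edgeSet, (⟨e, h⟩ : G.edgeSet) ∈ W := by
  unfold sub
  rw [SimpleGraph.edgeSet_fromEdgeSet]
  constructor
  · rintro ⟨⟨e', he', rfl⟩, -⟩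
    exact ⟨e'.2, he'⟩
  · rintro ⟨h, hW⟩
    exact ⟨⟨⟨e, h⟩, hW, rfl⟩, G.not_isDiag_of_mem_edgeSet h⟩

/-- Transport to the subgraph. -/
theorem col_sub (W : Set G.edgeSet) (L : G.edgeSet → Finset ℕ)
    (L' : (sub G W).edgeSet → Finset ℕ) (hL : ∀ (e : G.edgeSet) (he : e.1 ∈ (sub G W).edgeSet),
      L' ⟨e.1, he⟩ ⊆ L e)
    (h : ∃ f : (sub G W).edgeSet → ℕ, (∀ v, f v ∈ L' v) ∧
      ∀ u v, (sub G W).lineGraph.Adj u v → f u ≠ f v) : Col G.lineGraph W L := by
  classical
  obtain ⟨f, h1, h2⟩ := h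
  refine ⟨fun e => if he : e.1 ∈ (sub G W).edgeSet then f ⟨e.1, he⟩ else 0, ?_, ?_⟩
  · intro e he
    have he' : e.1 ∈ (sub G W).edgeSet := (mem_sub G W e.1).2 ⟨e.2, he⟩
    simp only [he', dif_pos]
    exact hL e he' (h1 _)
  · intro e he e' he' hadj
    have m1 : e.1 ∈ (sub G W).edgeSet := (mem_sub G W e.1).2 ⟨e.2, he⟩
    have m2 : e'.1 ∈ (sub G W).edgeSet := (mem_sub G W e'.1).2 ⟨e'.2, he'⟩
    simp only [m1, m2, dif_pos]
    apply h2
    rw [SimpleGraph.lineGraph_adj_iff_exists] at hadj ⊢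
    refine ⟨?_, hadj.2⟩
    intro h
    exact hadj.1 (Subtype.ext (congrArg (fun x => x.1) h))

theorem kcol_sub (W : Set G.edgeSet) (c : G.edgeSet → ℕ) (D : Finset ℕ) (hD : ∀ e ∈ W, c e ∈ D)
    (hc : ∀ e e', G.lineGraph.Adj e e' → c e ≠ c e') : (sub G W).lineGraph.Colorable D.card := by
  classical
  have h1 : ∀ e : (sub G W).edgeSet, ∃ h : e.1 ∈ G.edgeSet, (⟨e.1, h⟩ : G.edgeSet) ∈ W :=
    fun e => (mem_sub G W e.1).1 e.2
  choose p hp using h1
  have hcol : (sub G W).lineGraph.Coloring D := SimpleGraph.Coloring.mk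
    (fun e => (⟨c ⟨e.1, p e⟩, hD _ (hp e)⟩ : D)) (by
      intro u v huv h
      have h2 : c ⟨u.1, p u⟩ = c ⟨v.1, p v⟩ := congrArg Subtype.val h
      refine hc _ _ ?_ h2
      rw [SimpleGraph.lineGraph_adj_iff_exists] at huv ⊢
      refine ⟨?_, huv.2⟩
      intro h3
      exact huv.1 (Subtype.ext (congrArg (fun x => x.1) h3)))
  have := hcol.colorable
  rwa [Fintype.card_coe] at this

/-- **Galvin's theorem** for the edges with colours in `D`, if they form a bipartite graph. -/
theorem galvinD [Finite V] (c : G.edgeSet → ℕ) (hc : ∀ e e', G.lineGraph.Adj e e' → c e ≠ c e')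
    (D : Finset ℕ) (hb : (sub G {e | c e ∈ D}).Colorable 2) (L : G.edgeSet → Finset ℕ)
    (hL : ∀ e, D.card ≤ (L e).card) : Col G.lineGraph {e | c e ∈ D} L := by
  classical
  obtain ⟨side⟩ := hb
  have := Fintype.ofFinite V
  have : Fintype G.edgeSet := Fintype.ofFinite _
  let U : Type := {e : G.edgeSet // c e ∈ D}
  have hends : ∀ (e : U) (i : Fin 2), ∃ x : V, x ∈ e.1.1 ∧ side x = i ∧
      ∀ y, y ∈ e.1.1 → side y = i → y = x := by
    rintro ⟨⟨e, he⟩, hD⟩ i
    induction e with
    | _ x y =>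
      have hadj : (sub G {e | c e ∈ D}).Adj x y := by
        rw [← SimpleGraph.mem_edgeSet, mem_sub]
        exact ⟨he, hD⟩
      have hne := side.valid hadj
      have key : ∀ a b : Fin 2, a ≠ b → i = a ∨ i = b := by
        intro a b hab
        omega
      rcases key _ _ hne with h | h
      · refine ⟨x, Sym2.mem_mk_left x y, h.symm, ?_⟩
        intro z hz hz'
        rw [Sym2.mem_iff] at hz
        rcases hz with rfl | rfl
        · rfl
        · exact absurd (h.symm.trans hz'.symm) hne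
      · refine ⟨y, Sym2.mem_mk_right x y, h.symm, ?_⟩
        intro z hz hz'
        rw [Sym2.mem_iff] at hz
        rcases hz with rfl | rfl
        · exact absurd (hz'.trans h) hne
        · rfl
  choose p hp1 hp2 hp3 using hends
  have hfib : ∀ (i : Fin 2) (x : V), ((univ : Finset U).filter fun e => p e i = x).card ≤ D.card := by
    intro i x
    apply card_le_card_of_injOn (fun e => c e.1)
    · intro e _
      exact e.2
    · intro e he e' he' h
      rw [mem_coe, mem_filter] at he he'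
      by_contra hne
      refine hc e.1 e'.1 ?_ h
      rw [SimpleGraph.lineGraph_adj_iff_exists]
      refine ⟨fun h => hne (Subtype.ext h), x, ?_, ?_⟩
      · have := hp1 e i
        rwa [he.2] at this
      · have := hp1 e' i
        rwa [he'.2] at this
  obtain ⟨φ, hφ⟩ := Pool.Agent.N347.TC.galvin_multi (U := U) (fun e => p e 0) (fun e => p e 1)
    D.card (hfib 0) (hfib 1) (fun e => L e.1) (fun e => hL e.1)
  refine ⟨fun e => if h : c e ∈ D then φ ⟨e, h⟩ else 0, ?_, ?_⟩
  · intro e he
    have he' : c e ∈ D := he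
    simp only [he', dif_pos]
    exact (hφ ⟨e, he'⟩).1
  · intro e he e' he' hadj
    have m1 : c e ∈ D := he
    have m2 : c e' ∈ D := he'
    simp only [m1, m2, dif_pos]
    intro heq
    obtain ⟨k1, k2⟩ := (hφ ⟨e', m2⟩).2 ⟨e, m1⟩ (by
      intro h
      exact hadj.1 (congrArg Subtype.val h)) heq
    obtain ⟨-, z, z1, z2⟩ := SimpleGraph.lineGraph_adj_iff_exists.1 hadj
    rcases (show side z = 0 ∨ side z = 1 by omega) with h | h
    · exact k1 ((hp3 ⟨e, m1⟩ 0 z z1 h).symm.trans (hp3 ⟨e', m2⟩ 0 z z2 h))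
    · exact k2 ((hp3 ⟨e, m1⟩ 1 z z1 h).symm.trans (hp3 ⟨e', m2⟩ 1 z z2 h))

end edges

end Pool.Agent.H8.Few
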