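import Pool.Agent.H8.Few.Main

/-!
# Numbered lists
-/

set_option autoImplicit false

namespace Pool.Agent.H8.Few

open Finset

/-- **Numbered lists.** -/
theorem principle {V : Type} [Finite V] {H : SimpleGraph V} (hH : CF H) (r : ℕ) (m : Fin r → ℕ)
    (hm : ∀ j, m j = 1 ∨ m j = 2) (hk : H.Colorable (∑ j, m j)) (L : V → Finset ℕ)
    (n : V → ℕ → Fin r) (hn : ∀ u v x, H.Adj u v → x ∈ L u → x ∈ L v → n u x = n v x)
    (hL : ∀ v j, m j ≤ ((L v).filter fun x => n v x = j).card) :
    ∃ f : V → ℕ, (∀ v, f v ∈ L v) ∧ ∀ u v, H.Adj u v → f u ≠ f v := by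
  classical
  obtain ⟨c⟩ := hk
  let e : V → (Σ j : Fin r, Fin (m j)) := fun v => finSigmaFinEquiv.symm (c v)
  have he : ∀ u v, H.Adj u v → e u ≠ e v := by
    intro u v huv h
    exact c.valid huv (finSigmaFinEquiv.symm.injective h)
  have hcol : ∀ j, Col H {v | (e v).1 = j} (fun v => (L v).filter fun x => n v x = j) := by
    intro j
    have hK : KCol H {v | (e v).1 = j} (m j) := by
      refine ⟨fun v => (e v).2.1, ?_, ?_⟩
      · intro v hv
        have h1 : (e v).1 = j := hv
        have h0 := (e v).2.2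
        have h5 : m (e v).1 = m j := by rw [h1]
        show ((e v).2 : ℕ) < m j
        omega
      · intro u hu v hv huv h
        have h1 : (e u).1 = j := hu
        have h2 : (e v).1 = j := hv
        apply he u v huv
        have h3 : (e u).1 = (e v).1 := h1.trans h2.symm
        apply Sigma.ext h3
        rw [Fin.heq_ext_iff (by rw [h3])]
        exact h
    rcases hm j with h | h
    · rw [h] at hK
      exact one hK _ (fun v _ => h ▸ hL v j)
    · rw [h] at hK
      exact two hH hK _ (fun v _ => h ▸ hL v j)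
  choose f hf1 hf2 using hcol
  refine ⟨fun v => f (e v).1 v, ?_, ?_⟩
  · intro v
    exact (mem_filter.1 (hf1 (e v).1 v rfl)).1
  · intro u v huv h
    change f (e u).1 u = f (e v).1 v at h
    have a1 := mem_filter.1 (hf1 (e u).1 u rfl)
    have a2 := mem_filter.1 (hf1 (e v).1 v rfl)
    by_cases h3 : (e u).1 = (e v).1
    · have h4 := hf2 (e v).1 u h3 v rfl huv
      rw [h3] at h
      exact h4 h
    · have h4 := hn u v _ huv a1.1 (by
        rw [h]
        exact a2.1)
      rw [a1.2] at h4
      rw [h, a2.2] at h4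
      exact h3 h4

end Pool.Agent.H8.Few
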